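import Pool.Agent.Helper256.KM.Mertens

set_option autoImplicit false

/-!
Mertens sums over windows of primes.
-/

namespace Pool.Agent.W23.DS

open Finset

open Classical in
/-- the primes `q` with `a < q ≤ b` -/
noncomputable def Q (a b : ℝ) : Finset ℕ :=
  (Icc 1 ⌊b⌋₊).filter (fun q : ℕ => q.Prime ∧ a < (q : ℝ))

theorem mem_Q {a b : ℝ} {q : ℕ} : q ∈ Q a b ↔ q.Prime ∧ a < (q : ℝ) ∧ (q : ℝ) ≤ b := by
  unfold Q
  rw [mem_filter, mem_Icc]
  constructor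
  · rintro ⟨⟨h1, h2⟩, h3, h4⟩
    exact ⟨h3, h4, (Nat.le_floor_iff' (by omega)).1 h2⟩
  · rintro ⟨h1, h2, h3⟩
    exact ⟨⟨h1.one_lt.le, Nat.le_floor h3⟩, h1, h2⟩

theorem mert : ∃ C : ℝ, 0 ≤ C ∧ ∀ a b : ℝ, 1 ≤ a → a ≤ b →
    ∑ q ∈ Q a b, Real.log q / ((q : ℝ) - 1) ≤ Real.log b - Real.log a + C := by
  obtain ⟨C0, hC0⟩ := Pool.Agent.Helper256.KM.mertens_log
  obtain ⟨C1, hC1, hC1'⟩ := Pool.Agent.Helper256.KM.Mert.sum_small_bound
  have hC00 : 0 ≤ C0 := (abs_nonneg _).trans (hC0 1 le_rfl)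
  refine ⟨2 * C0 + C1 + Real.log 2, by positivity, ?_⟩
  intro a b ha hab
  have hb : 1 ≤ b := ha.trans hab
  have hfa : 1 ≤ ⌊a⌋₊ := Nat.floor_pos.2 ha
  have hfb : 1 ≤ ⌊b⌋₊ := Nat.floor_pos.2 hb
  have h1 := abs_le.1 (hC0 _ hfa)
  have h2 := abs_le.1 (hC0 _ hfb)
  have hsub : (Icc 1 ⌊a⌋₊).filter Nat.Prime ⊆ (Icc 1 ⌊b⌋₊).filter Nat.Prime := by
    intro q hq
    rw [mem_filter, mem_Icc] at hq ⊢
    exact ⟨⟨hq.1.1, hq.1.2.trans (Nat.floor_mono hab)⟩, hq.2⟩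
  have hQ : Q a b = (Icc 1 ⌊b⌋₊).filter Nat.Prime \ (Icc 1 ⌊a⌋₊).filter Nat.Prime := by
    ext q
    rw [mem_Q, mem_sdiff, mem_filter, mem_filter, mem_Icc, mem_Icc]
    constructor
    · rintro ⟨h1, h2, h3⟩
      refine ⟨⟨⟨h1.one_lt.le, Nat.le_floor h3⟩, h1⟩, ?_⟩
      rintro ⟨⟨_, h5⟩, _⟩
      have := (Nat.le_floor_iff (by linarith)).1 h5
      linarith
    · rintro ⟨⟨⟨h1, h2⟩, h3⟩, h4⟩
      refine ⟨h3, ?_, (Nat.le_floor_iff' (by omega)).1 h2⟩
      by_contra h5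
      exact h4 ⟨⟨h1, Nat.le_floor (not_lt.1 h5)⟩, h3⟩
  have h3 : ∑ q ∈ Q a b, Real.log q / (q : ℝ) =
      ∑ q ∈ (Icc 1 ⌊b⌋₊).filter Nat.Prime, Real.log q / (q : ℝ) -
        ∑ q ∈ (Icc 1 ⌊a⌋₊).filter Nat.Prime, Real.log q / (q : ℝ) := by
    rw [hQ, ← Finset.sum_sdiff hsub]
    ring
  have h4 : ∑ q ∈ Q a b, Real.log q / ((q : ℝ) * (q - 1)) ≤ C1 := by
    refine le_trans ?_ (hC1' ⌊b⌋₊)
    apply Finset.sum_le_sum_of_subset_of_nonneg
    · rw [hQ]; exact sdiff_subset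
    · intro q hq _
      rw [mem_filter] at hq
      have h2 : (2 : ℝ) ≤ q := by exact_mod_cast hq.2.two_le
      have : 0 ≤ Real.log q := Real.log_nonneg (by linarith)
      have : (0 : ℝ) < q * (q - 1) := by nlinarith
      positivity
  have h5 : ∑ q ∈ Q a b, Real.log q / ((q : ℝ) - 1) =
      ∑ q ∈ Q a b, Real.log q / (q : ℝ) + ∑ q ∈ Q a b, Real.log q / ((q : ℝ) * (q - 1)) := by
    rw [← Finset.sum_add_distrib]
    apply Finset.sum_congr rfl
    intro q hq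
    have h2 : (2 : ℝ) ≤ q := by exact_mod_cast (mem_Q.1 hq).1.two_le
    have h6 : (q : ℝ) ≠ 0 := by linarith
    have h7 : (q : ℝ) - 1 ≠ 0 := by linarith
    field_simp
    ring
  have h6 : Real.log (⌊b⌋₊ : ℝ) ≤ Real.log b :=
    Real.log_le_log (by exact_mod_cast hfb) (Nat.floor_le (by linarith))
  have h7 : Real.log a - Real.log 2 ≤ Real.log (⌊a⌋₊ : ℝ) := by
    rw [← Real.log_div (by linarith) (by norm_num)]
    apply Real.log_le_log (by linarith)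
    have h8 := Nat.lt_floor_add_one a
    have h9 : (1 : ℝ) ≤ ⌊a⌋₊ := by exact_mod_cast hfa
    linarith
  linarith

/-- windows: the sum `∑ log q / ((q - 1) log (X / q))` -/
noncomputable def WS (X s t : ℝ) : ℝ :=
  ∑ q ∈ Q (X ^ s) (X ^ t), Real.log q / (((q : ℝ) - 1) * Real.log (X / q))

theorem WS_term_nonneg {X t : ℝ} (hX : 1 < X) (ht : t < 1) {q : ℕ} (hq : q.Prime)
    (hqt : (q : ℝ) ≤ X ^ t) : 0 ≤ Real.log q / (((q : ℝ) - 1) * Real.log (X / q)) := by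
  have h2 : (2 : ℝ) ≤ q := by exact_mod_cast hq.two_le
  have h3 : 0 ≤ Real.log q := Real.log_nonneg (by linarith)
  have h4 : X ^ t < X := by
    calc X ^ t < X ^ (1 : ℝ) := Real.rpow_lt_rpow_of_exponent_lt hX ht
      _ = X := Real.rpow_one X
  have h5 : 0 < Real.log (X / q) := Real.log_pos (by rw [lt_div_iff₀ (by linarith)]; linarith)
  have h6 : (0 : ℝ) < (q : ℝ) - 1 := by linarith
  positivity

theorem WS_add {X r s t : ℝ} (hX : 1 < X) (ht : t < 1) (hst : s ≤ t) :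
    WS X r t ≤ WS X r s + WS X s t := by
  unfold WS
  have hsub : Q (X ^ r) (X ^ t) ⊆ Q (X ^ r) (X ^ s) ∪ Q (X ^ s) (X ^ t) := by
    intro q hq
    rw [mem_Q] at hq
    rw [mem_union, mem_Q, mem_Q]
    rcases le_or_gt (q : ℝ) (X ^ s) with h | h
    · exact Or.inl ⟨hq.1, hq.2.1, h⟩
    · exact Or.inr ⟨hq.1, h, hq.2.2⟩
  have hle : X ^ s ≤ X ^ t := Real.rpow_le_rpow_of_exponent_le hX.le hst
  refine (Finset.sum_le_sum_of_subset_of_nonneg hsub ?_).trans ?_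
  · intro q hq _
    rw [mem_union, mem_Q, mem_Q] at hq
    rcases hq with h | h
    · exact WS_term_nonneg hX ht h.1 (h.2.2.trans hle)
    · exact WS_term_nonneg hX ht h.1 h.2.2
  · rw [← Finset.sum_union_inter]
    have : 0 ≤ ∑ q ∈ Q (X ^ r) (X ^ s) ∩ Q (X ^ s) (X ^ t),
        Real.log q / (((q : ℝ) - 1) * Real.log (X / q)) := by
      apply Finset.sum_nonneg
      intro q hq
      rw [mem_inter, mem_Q, mem_Q] at hq
      exact WS_term_nonneg hX ht hq.2.1 hq.2.2.2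
    linarith

theorem WS_piece {C : ℝ} (hC : 0 ≤ C) (hm : ∀ a b : ℝ, 1 ≤ a → a ≤ b →
    ∑ q ∈ Q a b, Real.log q / ((q : ℝ) - 1) ≤ Real.log b - Real.log a + C)
    {X s t : ℝ} (hX : 1 < X) (hs : 0 ≤ s) (hst : s ≤ t) (ht : t < 1) :
    WS X s t ≤ (t - s) / (1 - t) + C / ((1 - t) * Real.log X) := by
  have hL : 0 < Real.log X := Real.log_pos hX
  have h1 := hm (X ^ s) (X ^ t) (Real.one_le_rpow hX.le hs)
    (Real.rpow_le_rpow_of_exponent_le hX.le hst)
  rw [Real.log_rpow (by linarith), Real.log_rpow (by linarith)] at h1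
  have h2 : WS X s t ≤ (∑ q ∈ Q (X ^ s) (X ^ t), Real.log q / ((q : ℝ) - 1)) /
      ((1 - t) * Real.log X) := by
    unfold WS
    rw [Finset.sum_div]
    apply Finset.sum_le_sum
    intro q hq
    rw [mem_Q] at hq
    have h2 : (2 : ℝ) ≤ q := by exact_mod_cast hq.1.two_le
    have h3 : 0 ≤ Real.log q := Real.log_nonneg (by linarith)
    have h6 : (0 : ℝ) < (q : ℝ) - 1 := by linarith
    have h7 : (1 - t) * Real.log X ≤ Real.log (X / q) := by
      rw [Real.log_div (by linarith) (by linarith)]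
      have : Real.log q ≤ Real.log (X ^ t) := Real.log_le_log (by linarith) hq.2.2
      rw [Real.log_rpow (by linarith)] at this
      linarith
    have h8 : 0 < (1 - t) * Real.log X := mul_pos (by linarith) hL
    rw [div_div]
    apply div_le_div_of_nonneg_left h3 (by positivity)
    exact mul_le_mul_of_nonneg_left h7 h6.le
  refine h2.trans ?_
  have h8 : 0 < (1 - t) * Real.log X := mul_pos (by linarith) hL
  calc _ ≤ (t * Real.log X - s * Real.log X + C) / ((1 - t) * Real.log X) :=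
        div_le_div_of_nonneg_right h1 h8.le
    _ = _ := by
        have : (1 - t) ≠ 0 := by linarith
        field_simp

theorem WS_iter {C : ℝ} (hC : 0 ≤ C) (hm : ∀ a b : ℝ, 1 ≤ a → a ≤ b →
    ∑ q ∈ Q a b, Real.log q / ((q : ℝ) - 1) ≤ Real.log b - Real.log a + C)
    {X s ρ : ℝ} (hX : 1 < X) (hs : 0 ≤ s) (hs1 : s < 1) (hρ : 1 ≤ ρ) (J : ℕ) :
    WS X s (1 - (1 - s) / ρ ^ J) ≤ J * (ρ - 1) + J * (C / (((1 - s) / ρ ^ J) * Real.log X)) := by
  have hL : 0 < Real.log X := Real.log_pos hX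
  have hρ0 : 0 < ρ := by linarith
  induction J with
  | zero =>
    simp only [pow_zero, div_one, sub_sub_cancel, Nat.cast_zero, zero_mul, add_zero]
    unfold WS
    have : Q (X ^ s) (X ^ s) = ∅ := by
      ext q
      rw [mem_Q]
      constructor
      · rintro ⟨_, h1, h2⟩
        exact absurd h2 (not_le.2 h1)
      · simp
    rw [this]
    simp
  | succ J ih =>
    have h1 : 0 < (1 - s) / ρ ^ (J + 1) := by
      have : 0 < 1 - s := by linarith
      positivity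
    have h2 : (1 - s) / ρ ^ (J + 1) ≤ (1 - s) / ρ ^ J := by
      apply div_le_div_of_nonneg_left (by linarith) (by positivity)
      exact pow_le_pow_right₀ hρ (by omega)
    have h2' : (1 - s) / ρ ^ J ≤ 1 - s := div_le_self (by linarith) (one_le_pow₀ hρ)
    have h3 := WS_add (X := X) (r := s) (s := 1 - (1 - s) / ρ ^ J)
      (t := 1 - (1 - s) / ρ ^ (J + 1)) hX (by linarith) (by linarith)
    have h4 := WS_piece hC hm (X := X) (s := 1 - (1 - s) / ρ ^ J)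
      (t := 1 - (1 - s) / ρ ^ (J + 1)) hX (by linarith) (by linarith) (by linarith)
    have h5 : (1 - (1 - s) / ρ ^ (J + 1) - (1 - (1 - s) / ρ ^ J)) /
        (1 - (1 - (1 - s) / ρ ^ (J + 1))) = ρ - 1 := by
      have hs' : 1 - s ≠ 0 := by linarith
      have hρJ : ρ ^ J ≠ 0 := by positivity
      have e1 : (1 - (1 - s) / ρ ^ (J + 1) - (1 - (1 - s) / ρ ^ J)) =
          (1 - s) / ρ ^ (J + 1) * (ρ - 1) := by
        rw [pow_succ]
        field_simp
        ring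
      have e2 : (1 - (1 - (1 - s) / ρ ^ (J + 1))) = (1 - s) / ρ ^ (J + 1) := by ring
      rw [e1, e2, mul_div_assoc, mul_comm, div_mul_cancel₀]
      exact h1.ne'
    rw [h5] at h4
    have h6 : J * (C / (((1 - s) / ρ ^ J) * Real.log X)) ≤
        J * (C / (((1 - s) / ρ ^ (J + 1)) * Real.log X)) := by
      apply mul_le_mul_of_nonneg_left _ (Nat.cast_nonneg J)
      apply div_le_div_of_nonneg_left hC (by positivity)
      exact mul_le_mul_of_nonneg_right h2 hL.le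
    have h7 : (1 - (1 - (1 - s) / ρ ^ (J + 1))) = (1 - s) / ρ ^ (J + 1) := by ring
    rw [h7] at h4
    push_cast
    linarith

theorem WS_le (s t ε : ℝ) (hs : 0 ≤ s) (hst : s ≤ t) (ht : t < 1) (hε : 0 < ε) :
    ∃ X0 : ℝ, 1 < X0 ∧ ∀ X : ℝ, X0 ≤ X → WS X s t ≤ Real.log ((1 - s) / (1 - t)) + ε := by
  obtain ⟨C, hC, hm⟩ := mert
  have h1t : 0 < 1 - t := by linarith
  have h1s : 0 < 1 - s := by linarith
  have hpos : ∀ J : ℝ, 0 ≤ J → 0 ≤ 2 * J * C / ((1 - t) * ε) := fun J hJ =>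
    div_nonneg (by positivity) (mul_pos h1t hε).le
  set ℓ := Real.log ((1 - s) / (1 - t)) with hℓ
  have hℓ0 : 0 ≤ ℓ := Real.log_nonneg (by rw [le_div_iff₀ h1t]; linarith)
  obtain ⟨J, hJ⟩ := exists_nat_gt (max ℓ (2 * ℓ ^ 2 / ε))
  have hJ1 : ℓ < J := (le_max_left _ _).trans_lt hJ
  have hJ2 : 2 * ℓ ^ 2 / ε < J := (le_max_right _ _).trans_lt hJ
  have hJ0 : (0 : ℝ) < J := lt_of_le_of_lt hℓ0 hJ1
  set ρ := Real.exp (ℓ / J) with hρ
  have hρ1 : 1 ≤ ρ := Real.one_le_exp (by positivity)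
  have hρJ : ρ ^ J = (1 - s) / (1 - t) := by
    rw [hρ, ← Real.exp_nat_mul, mul_div_cancel₀ _ hJ0.ne', hℓ, Real.exp_log (by positivity)]
  have hρ2 : ρ - 1 ≤ ℓ / J + (ℓ / J) ^ 2 := by
    have h0 : |ℓ / (J : ℝ)| ≤ 1 := by
      rw [abs_of_nonneg (by positivity), div_le_one hJ0]
      exact hJ1.le
    have := (abs_le.1 (Real.abs_exp_sub_one_sub_id_le h0)).2
    linarith
  refine ⟨Real.exp (1 + 2 * J * C / ((1 - t) * ε)), ?_, ?_⟩
  · exact Real.one_lt_exp_iff.2 (by linarith [hpos J hJ0.le])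
  intro X hX
  have hX0 : 0 < X := (Real.exp_pos _).trans_le hX
  have hLX : 1 + 2 * J * C / ((1 - t) * ε) ≤ Real.log X := by
    rw [Real.le_log_iff_exp_le hX0]
    exact hX
  have hL : 0 < Real.log X := lt_of_lt_of_le (by linarith [hpos J hJ0.le]) hLX
  have hX1 : 1 < X := by
    by_contra h
    exact absurd (Real.log_nonpos hX0.le (not_lt.1 h)) (not_le.2 hL)
  have h1 := WS_iter hC hm (X := X) (s := s) (ρ := ρ) hX1 hs (by linarith) hρ1 J
  have h2 : (1 - s) / ρ ^ J = 1 - t := by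
    rw [hρJ]
    field_simp
  rw [h2, sub_sub_cancel] at h1
  refine h1.trans ?_
  have h3 : J * (ρ - 1) ≤ ℓ + ε / 2 := by
    have h4 : J * (ρ - 1) ≤ J * (ℓ / J + (ℓ / J) ^ 2) := mul_le_mul_of_nonneg_left hρ2 hJ0.le
    have h5 : J * (ℓ / J + (ℓ / J) ^ 2) = ℓ + ℓ ^ 2 / J := by
      field_simp
    have h6 : ℓ ^ 2 / J ≤ ε / 2 := by
      rw [div_le_iff₀ hJ0]
      rw [div_lt_iff₀ hε] at hJ2
      linarith
    linarith
  have h4 : J * (C / ((1 - t) * Real.log X)) ≤ ε / 2 := by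
    have h5 : 2 * J * C / ((1 - t) * ε) ≤ Real.log X := by linarith
    rw [div_le_iff₀ (by positivity)] at h5
    rw [← mul_div_assoc, div_le_iff₀ (by positivity)]
    linarith
  linarith

end Pool.Agent.W23.DS
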