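import Pool.Agent.H442R2.BX.Asm
import Pool.Agent.W23.DSa

set_option autoImplicit false

/-!
Large prime factors of `N - p`, `p` in a dense set of primes.
-/

namespace Pool.Agent.W23.DS

open Finset ArithmeticFunction Filter

open Classical in
/-- the `p ∈ A`, `p ≠ N`, such that `N - p` has a prime factor `> y` -/
noncomputable def big (A : Finset ℕ) (N : ℤ) (y : ℝ) : Finset ℕ :=
  A.filter (fun p : ℕ => (p : ℤ) ≠ N ∧ ∃ q : ℕ, q.Prime ∧ y < (q : ℝ) ∧ (q : ℤ) ∣ N - p)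

theorem mem_big {A : Finset ℕ} {N : ℤ} {y : ℝ} {p : ℕ} : p ∈ big A N y ↔
    p ∈ A ∧ (p : ℤ) ≠ N ∧ ∃ q : ℕ, q.Prime ∧ y < (q : ℝ) ∧ (q : ℤ) ∣ N - p := by
  classical
  unfold big
  simp only [Finset.mem_filter]

theorem swap_sum (A : Finset ℕ) (N : ℤ) (S : Finset ℕ) (w : ℕ → ℝ) :
    ∑ q ∈ S, w q * (cc A N q : ℝ) =
      ∑ p ∈ A, ∑ q ∈ S, if ((p : ℤ) ≠ N ∧ (q : ℤ) ∣ N - (p : ℤ)) then w q else 0 := by
  rw [Finset.sum_comm]
  apply Finset.sum_congr rfl
  intro q _
  rw [← Finset.sum_filter, Finset.sum_const, nsmul_eq_mul, mul_comm]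
  rfl

theorem sum_log_dvd_le {m : ℕ} (hm : m ≠ 0) (S : Finset ℕ) (hS : ∀ q ∈ S, q.Prime ∧ q ∣ m) :
    ∑ q ∈ S, Real.log q ≤ Real.log m := by
  rw [← vonMangoldt_sum]
  calc ∑ q ∈ S, Real.log q = ∑ q ∈ S, Λ q := by
        apply Finset.sum_congr rfl
        intro q hq
        rw [vonMangoldt_apply_prime (hS q hq).1]
    _ ≤ ∑ d ∈ m.divisors, Λ d := by
        apply Finset.sum_le_sum_of_subset_of_nonneg
        · intro q hq
          exact Nat.mem_divisors.2 ⟨(hS q hq).2, hm⟩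
        · intro _ _ _
          exact vonMangoldt_nonneg

theorem top_le {A : Finset ℕ} {N : ℤ} {X : ℕ} (hA : ∀ p ∈ A, p ≤ X) (hN : |N| ≤ 2 * X)
    (y : ℝ) (hX : 1 ≤ X) :
    ∑ q ∈ Q y (3 * X), Real.log q * (cc A N q : ℝ) ≤
      (big A N y).card * Real.log (3 * X) := by
  classical
  rw [swap_sum]
  have hsub : big A N y ⊆ A := fun p hp => (mem_big.1 hp).1
  rw [← Finset.sum_sdiff hsub]
  have h0 : ∑ p ∈ A \ big A N y, ∑ q ∈ Q y (3 * X),
      (if ((p : ℤ) ≠ N ∧ (q : ℤ) ∣ N - (p : ℤ)) then Real.log q else 0) = 0 := by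
    apply Finset.sum_eq_zero
    intro p hp
    apply Finset.sum_eq_zero
    intro q hq
    rw [if_neg]
    rintro ⟨h1, h2⟩
    rw [Finset.mem_sdiff] at hp
    rw [mem_Q] at hq
    exact hp.2 (mem_big.2 ⟨hp.1, h1, q, hq.1, hq.2.1, h2⟩)
  rw [h0, zero_add, ← nsmul_eq_mul]
  apply Finset.sum_le_card_nsmul
  intro p hp
  have hp' := mem_big.1 hp
  have hpX := hA p hp'.1
  have h3 := abs_le.1 hN
  have hne : (N - (p : ℤ)).natAbs ≠ 0 := by
    rw [Int.natAbs_ne_zero]
    have := hp'.2.1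
    omega
  rw [← Finset.sum_filter]
  refine (sum_log_dvd_le hne _ ?_).trans ?_
  · intro q hq
    rw [mem_filter, mem_Q] at hq
    exact ⟨hq.1.1, Int.natCast_dvd.1 hq.2.2⟩
  · apply Real.log_le_log (by exact_mod_cast Nat.pos_of_ne_zero hne)
    have : (N - (p : ℤ)).natAbs ≤ 3 * X := by omega
    exact_mod_cast this

open Pool.Agent.H442R2.BX in
theorem mid_le {A : Finset ℕ} {N : ℤ} {X : ℕ} (hA : ∀ p ∈ A, p.Prime ∧ p ≤ X) (hN : |N| ≤ 2 * X)
    (hN0 : N ≠ 0) {θ ε : ℝ} (hε : 0 < ε) (hX : 1 ≤ X) :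
    ∑ q ∈ Q (((2 * X : ℕ) : ℝ) ^ ε) (((2 * X : ℕ) : ℝ) ^ θ), Real.log q * (cc A N q : ℝ) ≤
      A.card * ∑ q ∈ Q (((2 * X : ℕ) : ℝ) ^ ε) (((2 * X : ℕ) : ℝ) ^ θ), Real.log q / ((q : ℝ) - 1) +
      Real.log (((2 * X : ℕ) : ℝ) ^ θ) *
        ∑ d ∈ (roughs (((2 * X : ℕ) : ℝ) ^ ε) ⌊((2 * X : ℕ) : ℝ) ^ θ⌋₊).filter
          (fun d : ℕ => Int.gcd N d = 1), |Df (fun p => if p ∈ A then 1 else 0) (2 * X) N d| +
      Real.log (2 * X) := by
  classical
  set M : ℕ := 2 * X with hM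
  set S := Q ((M : ℝ) ^ ε) ((M : ℝ) ^ θ) with hS
  set f : ℕ → ℝ := fun p => if p ∈ A then 1 else 0 with hf
  have hM1 : (1 : ℝ) ≤ M := by
    rw [hM]; push_cast
    have : (1 : ℝ) ≤ X := by exact_mod_cast hX
    linarith
  have h2 : ∀ q ∈ S, 2 ≤ (q : ℝ) := fun q hq => by exact_mod_cast (mem_Q.1 hq).1.two_le
  have hlog : ∀ q ∈ S, 0 ≤ Real.log q := fun q hq => Real.log_nonneg (by linarith [h2 q hq])
  -- primes not dividing N
  have key : ∀ q ∈ S, Real.log q * (cc A N q : ℝ) ≤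
      A.card * (Real.log q / ((q : ℝ) - 1)) +
      (if (q : ℤ) ∣ N then 0 else Real.log ((M : ℝ) ^ θ) * |Df f M N q|) +
      (if (q : ℤ) ∣ N then Real.log q else 0) := by
    intro q hq
    have hq' := mem_Q.1 hq
    have h2q := h2 q hq
    have hlq := hlog q hq
    by_cases hd : (q : ℤ) ∣ N
    · rw [if_pos hd, if_pos hd]
      have h1 : cc A N q ≤ 1 := by
        unfold cc
        rw [Finset.card_le_one]
        have hh : ∀ p ∈ A.filter (fun p : ℕ => (p : ℤ) ≠ N ∧ (q : ℤ) ∣ N - p), p = q := by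
          intro p hp
          rw [mem_filter] at hp
          have h3 : (q : ℤ) ∣ (p : ℤ) := (dvd_sub_right hd).1 hp.2.2
          have h4 : q ∣ p := Int.natCast_dvd_natCast.1 h3
          exact ((Nat.prime_dvd_prime_iff_eq hq'.1 (hA p hp.1).1).1 h4).symm
        intro a ha b hb
        rw [hh a ha, hh b hb]
      have h3 : (cc A N q : ℝ) ≤ 1 := by exact_mod_cast h1
      have h4 : Real.log q * (cc A N q : ℝ) ≤ Real.log q * 1 := mul_le_mul_of_nonneg_left h3 hlq
      have h5 : 0 ≤ (A.card : ℝ) * (Real.log q / ((q : ℝ) - 1)) := by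
        have : (0 : ℝ) < (q : ℝ) - 1 := by linarith
        positivity
      linarith
    · rw [if_neg hd, if_neg hd]
      have hsum1 : ∑ p ∈ (Icc 1 M).filter Nat.Prime, f p = A.card := by
        rw [hf, ← Finset.sum_filter, Finset.sum_const, nsmul_eq_mul, mul_one]
        congr 2
        ext p
        rw [mem_filter, mem_filter, mem_Icc]
        constructor
        · exact fun h => h.2
        · intro h
          have := hA p h
          refine ⟨⟨⟨this.1.one_lt.le, by omega⟩, this.1⟩, h⟩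
      have hsum2 : (cc A N q : ℝ) ≤
          ∑ p ∈ (Icc 1 M).filter (fun p : ℕ => p.Prime ∧ (p : ℤ) ≡ N [ZMOD q]), f p := by
        rw [hf, ← Finset.sum_filter, Finset.sum_const, nsmul_eq_mul, mul_one]
        unfold cc
        norm_cast
        apply Finset.card_le_card
        intro p hp
        rw [mem_filter] at hp
        have := hA p hp.1
        rw [mem_filter, mem_filter, mem_Icc]
        exact ⟨⟨⟨this.1.one_lt.le, by omega⟩, this.1, Int.modEq_iff_dvd.2 hp.2.2⟩, hp.1⟩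
      have hDf : (cc A N q : ℝ) ≤ A.card / ((q : ℝ) - 1) + |Df f M N q| := by
        have h3 : Df f M N q = (∑ p ∈ (Icc 1 M).filter
            (fun p : ℕ => p.Prime ∧ (p : ℤ) ≡ N [ZMOD q]), f p) - A.card / ((q : ℝ) - 1) := by
          unfold Df
          rw [hsum1, Nat.totient_prime hq'.1, Nat.cast_sub hq'.1.one_le, Nat.cast_one]
        have h4 := le_abs_self (Df f M N q)
        rw [h3] at h4 ⊢
        linarith
      have h5 : Real.log q ≤ Real.log ((M : ℝ) ^ θ) := Real.log_le_log (by linarith) hq'.2.2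
      calc Real.log q * (cc A N q : ℝ) ≤ Real.log q * (A.card / ((q : ℝ) - 1) + |Df f M N q|) :=
            mul_le_mul_of_nonneg_left hDf hlq
        _ = A.card * (Real.log q / ((q : ℝ) - 1)) + Real.log q * |Df f M N q| := by ring
        _ ≤ A.card * (Real.log q / ((q : ℝ) - 1)) + Real.log ((M : ℝ) ^ θ) * |Df f M N q| := by
            have := mul_le_mul_of_nonneg_right h5 (abs_nonneg (Df f M N q))
            linarith
        _ = _ := by ring
  refine (Finset.sum_le_sum key).trans ?_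
  rw [Finset.sum_add_distrib, Finset.sum_add_distrib, ← Finset.mul_sum]
  have hlogM : S.Nonempty → 0 ≤ Real.log ((M : ℝ) ^ θ) := by
    rintro ⟨q, hq⟩
    exact Real.log_nonneg (by linarith [h2 q hq, (mem_Q.1 hq).2.2])
  have h6 : ∑ q ∈ S, (if (q : ℤ) ∣ N then 0 else Real.log ((M : ℝ) ^ θ) * |Df f M N q|) ≤
      Real.log ((M : ℝ) ^ θ) * ∑ d ∈ (roughs ((M : ℝ) ^ ε) ⌊(M : ℝ) ^ θ⌋₊).filter
          (fun d : ℕ => Int.gcd N d = 1), |Df f M N d| := by
    by_cases hne : S.Nonempty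
    · have hl := hlogM hne
      rw [Finset.mul_sum]
      have h7 : ∑ q ∈ S, (if (q : ℤ) ∣ N then 0 else Real.log ((M : ℝ) ^ θ) * |Df f M N q|) =
          ∑ q ∈ S.filter (fun q : ℕ => ¬ (q : ℤ) ∣ N), Real.log ((M : ℝ) ^ θ) * |Df f M N q| := by
        rw [Finset.sum_filter]
        apply Finset.sum_congr rfl
        intro q _
        by_cases h : (q : ℤ) ∣ N
        · rw [if_pos h, if_neg (not_not.2 h)]
        · rw [if_neg h, if_pos h]
      rw [h7]
      apply Finset.sum_le_sum_of_subset_of_nonneg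
      · intro q hq
        rw [mem_filter] at hq
        have hq' := mem_Q.1 hq.1
        rw [mem_filter]
        refine ⟨?_, ?_⟩
        · unfold roughs
          rw [mem_filter, mem_Icc]
          refine ⟨⟨hq'.1.one_lt.le, Nat.le_floor hq'.2.2⟩, hq'.1.one_lt, ?_⟩
          intro p hp hpq
          rw [(Nat.prime_dvd_prime_iff_eq hp hq'.1).1 hpq]
          exact hq'.2.1
        · rw [Int.gcd_comm]
          exact Int.isCoprime_iff_gcd_eq_one.1
            (((Nat.prime_iff_prime_int.1 hq'.1).coprime_iff_not_dvd).2 hq.2)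
      · intro d _ _
        exact mul_nonneg hl (abs_nonneg _)
    · rw [Finset.not_nonempty_iff_eq_empty] at hne
      rw [hne, Finset.sum_empty]
      rcases le_or_gt 0 θ with hθ | hθ
      · exact mul_nonneg (Real.log_nonneg (Real.one_le_rpow hM1 hθ))
          (Finset.sum_nonneg fun _ _ => abs_nonneg _)
      · -- the set of rough numbers is empty
        have h9 : roughs ((M : ℝ) ^ ε) ⌊(M : ℝ) ^ θ⌋₊ = ∅ := by
          unfold roughs
          rw [Finset.filter_eq_empty_iff]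
          intro d hd hr
          rw [mem_Icc] at hd
          have h10 : (M : ℝ) ^ θ ≤ 1 := Real.rpow_le_one_of_one_le_of_nonpos hM1 hθ.le
          have h11 : ⌊(M : ℝ) ^ θ⌋₊ ≤ 1 := by
            have := Nat.floor_mono h10
            simpa using this
          have := hr.1
          omega
        rw [h9]
        simp
  have h7 : ∑ q ∈ S, (if (q : ℤ) ∣ N then Real.log q else 0) ≤ Real.log (2 * X) := by
    rw [← Finset.sum_filter]
    have hne : N.natAbs ≠ 0 := Int.natAbs_ne_zero.2 hN0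
    refine (sum_log_dvd_le hne _ ?_).trans ?_
    · intro q hq
      rw [mem_filter, mem_Q] at hq
      exact ⟨hq.1.1, Int.natCast_dvd.1 hq.2⟩
    · apply Real.log_le_log (by exact_mod_cast Nat.pos_of_ne_zero hne)
      have : N.natAbs ≤ 2 * X := by
        have := abs_le.1 hN
        omega
      exact_mod_cast this
  linarith

theorem upp_le {ε Z : ℝ} (hZ : ∀ (k : ℕ) (l : ℤ) (x y : ℝ), 1 ≤ k →
    Z ≤ y / k → (Pool.Agent.H617R3.BT.cnt x y k l : ℝ) ≤
      (2 + ε) * y / ((Nat.totient k : ℝ) * Real.log (y / k)))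
    {A : Finset ℕ} {N : ℤ} {X : ℕ} (hA : ∀ p ∈ A, p.Prime ∧ p ≤ X) (S : Finset ℕ)
    (hS : ∀ q ∈ S, q.Prime ∧ Z ≤ X / q) :
    ∑ q ∈ S, Real.log q * (cc A N q : ℝ) ≤
      (2 + ε) * X * ∑ q ∈ S, Real.log q / (((q : ℝ) - 1) * Real.log (X / q)) := by
  rw [Finset.mul_sum]
  apply Finset.sum_le_sum
  intro q hq
  obtain ⟨hq1, hq2⟩ := hS q hq
  have h1 := hZ q N X X hq1.one_lt.le hq2
  rw [Nat.totient_prime hq1, Nat.cast_sub hq1.one_le, Nat.cast_one] at h1
  have h2 : (cc A N q : ℝ) ≤ (Pool.Agent.H617R3.BT.cnt X X q N : ℝ) := by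
    exact_mod_cast cc_le_cnt hA
  have h3 : 0 ≤ Real.log q := Real.log_nonneg (by exact_mod_cast hq1.one_lt.le)
  calc Real.log q * (cc A N q : ℝ) ≤ Real.log q * ((2 + ε) * X /
        (((q : ℝ) - 1) * Real.log (X / q))) := mul_le_mul_of_nonneg_left (h2.trans h1) h3
    _ = _ := by ring

end Pool.Agent.W23.DS
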