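import Pool.Agent.W23.DSb

set_option autoImplicit false

/-!
Large prime factors of `N - p`, `p` in a dense set of primes: assembly.
-/

namespace Pool.Agent.W23.DS

open Finset ArithmeticFunction Filter Topology

theorem big_mono {A : Finset ℕ} {N : ℤ} {y z : ℝ} (h : y ≤ z) : big A N z ⊆ big A N y := by
  intro p hp
  obtain ⟨h1, h2, q, h3, h4, h5⟩ := mem_big.1 hp
  exact mem_big.2 ⟨h1, h2, q, h3, h.trans_lt h4, h5⟩

/-- lower bound for the sum of the logarithms -/
theorem T_ge {A : Finset ℕ} {N : ℤ} {X : ℕ} (hX : 0 < Real.log X) (hX1 : 1 ≤ Real.log X)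
    (hpos : 0 ≤ Real.log X - 2 * Real.log (Real.log X)) :
    (A.card - (2 * (X / Real.log X ^ 2) + 1)) * (Real.log X - 2 * Real.log (Real.log X)) ≤
      ∑ p ∈ A.filter (fun p : ℕ => (p : ℤ) ≠ N), Real.log ((N - (p : ℤ)).natAbs : ℝ) := by
  classical
  set Y : ℝ := X / Real.log X ^ 2 with hY
  have hX0 : (0 : ℝ) < X := by
    by_contra h
    have : (X : ℝ) = 0 := le_antisymm (not_lt.1 h) (Nat.cast_nonneg _)
    rw [this, Real.log_zero] at hX
    exact lt_irrefl _ hX
  have hY0 : 0 < Y := by positivity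
  set k : ℕ := ⌊Y⌋₊ with hk
  have hlogY : Real.log Y = Real.log X - 2 * Real.log (Real.log X) := by
    rw [hY, Real.log_div hX0.ne' (by positivity), Real.log_pow]
    norm_num
  rw [← hlogY] at hpos ⊢
  have h1 : (A.filter (fun p : ℕ => ¬ (k < (N - (p : ℤ)).natAbs))).card ≤ 2 * k + 1 := by
    have h2 : (A.filter (fun p : ℕ => ¬ (k < (N - (p : ℤ)).natAbs))).card ≤
        (Icc (N - k) (N + k)).card := by
      apply Finset.card_le_card_of_injOn (fun p : ℕ => (p : ℤ))
      · intro p hp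
        rw [Finset.mem_coe, mem_filter] at hp
        rw [Finset.mem_coe, mem_Icc]
        simp only
        omega
      · intro p _ q _ h
        simp only at h
        exact_mod_cast h
    rw [Int.card_Icc] at h2
    omega
  have h2 : A.card = (A.filter (fun p : ℕ => k < (N - (p : ℤ)).natAbs)).card +
      (A.filter (fun p : ℕ => ¬ (k < (N - (p : ℤ)).natAbs))).card :=
    (Finset.card_filter_add_card_filter_not _).symm
  have h3 : (A.card : ℝ) - (2 * Y + 1) ≤
      (A.filter (fun p : ℕ => k < (N - (p : ℤ)).natAbs)).card := by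
    have h4 : (k : ℝ) ≤ Y := Nat.floor_le hY0.le
    have h5 : (A.card : ℝ) ≤ (A.filter (fun p : ℕ => k < (N - (p : ℤ)).natAbs)).card +
      (2 * k + 1) := by
      have : A.card ≤ (A.filter (fun p : ℕ => k < (N - (p : ℤ)).natAbs)).card + (2 * k + 1) := by
        omega
      exact_mod_cast this
    linarith
  calc ((A.card : ℝ) - (2 * Y + 1)) * Real.log Y
      ≤ (A.filter (fun p : ℕ => k < (N - (p : ℤ)).natAbs)).card * Real.log Y :=
        mul_le_mul_of_nonneg_right h3 hpos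
    _ ≤ ∑ p ∈ A.filter (fun p : ℕ => k < (N - (p : ℤ)).natAbs),
          Real.log ((N - (p : ℤ)).natAbs : ℝ) := by
        rw [← nsmul_eq_mul]
        apply Finset.card_nsmul_le_sum
        intro p hp
        rw [mem_filter] at hp
        apply Real.log_le_log hY0
        have h6 := Nat.lt_floor_add_one Y
        have h7 : ((k : ℝ) + 1) ≤ ((N - (p : ℤ)).natAbs : ℝ) := by exact_mod_cast hp.2
        linarith
    _ ≤ _ := by
        apply Finset.sum_le_sum_of_subset_of_nonneg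
        · intro p hp
          rw [mem_filter] at hp ⊢
          refine ⟨hp.1, ?_⟩
          intro h
          have : (N - (p : ℤ)).natAbs = 0 := by rw [h]; simp
          omega
        · intro p _ _
          exact Real.log_natCast_nonneg _

theorem prime_split {A : Finset ℕ} {N : ℤ} {X : ℕ} (a b c : ℝ) :
    ∑ d ∈ (Icc 1 (3 * X)).filter (fun d => d.Prime), Λ d * (cc A N d : ℝ) ≤
      ∑ q ∈ Q 1 a, Real.log q * (cc A N q : ℝ) + ∑ q ∈ Q a b, Real.log q * (cc A N q : ℝ) +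
      ∑ q ∈ Q b c, Real.log q * (cc A N q : ℝ) +
      ∑ q ∈ Q c (3 * X), Real.log q * (cc A N q : ℝ) := by
  classical
  have h0 : ∀ q : ℕ, 0 ≤ Real.log q * (cc A N q : ℝ) := fun q =>
    mul_nonneg (Real.log_natCast_nonneg _) (Nat.cast_nonneg _)
  have h1 : ∑ d ∈ (Icc 1 (3 * X)).filter (fun d => d.Prime), Λ d * (cc A N d : ℝ) =
      ∑ d ∈ (Icc 1 (3 * X)).filter (fun d => d.Prime), Real.log d * (cc A N d : ℝ) := by
    apply Finset.sum_congr rfl
    intro d hd
    rw [vonMangoldt_apply_prime (mem_filter.1 hd).2]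
  rw [h1]
  have hun : ∀ S T : Finset ℕ, ∑ q ∈ S ∪ T, Real.log q * (cc A N q : ℝ) ≤
      ∑ q ∈ S, Real.log q * (cc A N q : ℝ) + ∑ q ∈ T, Real.log q * (cc A N q : ℝ) := by
    intro S T
    rw [← Finset.sum_union_inter]
    have := Finset.sum_nonneg (s := S ∩ T) fun q _ => h0 q
    linarith
  refine le_trans ?_ ((hun (Q 1 a ∪ Q a b ∪ Q b c) (Q c (3 * X))).trans
    (add_le_add_left ((hun (Q 1 a ∪ Q a b) (Q b c)).trans
      (add_le_add_left (hun (Q 1 a) (Q a b)) _)) _))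
  apply Finset.sum_le_sum_of_subset_of_nonneg
  · intro q hq
    rw [mem_filter, mem_Icc] at hq
    have hq1 : (1 : ℝ) < q := by exact_mod_cast hq.2.one_lt
    have hq2 : (q : ℝ) ≤ 3 * X := by exact_mod_cast hq.1.2
    rw [mem_union, mem_union, mem_union, mem_Q, mem_Q, mem_Q, mem_Q]
    rcases le_or_gt (q : ℝ) a with h | h
    · exact Or.inl (Or.inl (Or.inl ⟨hq.2, hq1, h⟩))
    rcases le_or_gt (q : ℝ) b with h' | h'
    · exact Or.inl (Or.inl (Or.inr ⟨hq.2, h, h'⟩))
    rcases le_or_gt (q : ℝ) c with h'' | h''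
    · exact Or.inl (Or.inr ⟨hq.2, h', h''⟩)
    · exact Or.inr ⟨hq.2, h'', hq2⟩
  · intro q _ _
    exact h0 q

theorem exists_theta {δ β : ℝ}
    (hβ : β < 1 - 13 / 27 * Real.exp (-(13 * δ / 54))) :
    ∃ θ : ℝ, 1 / 2 < θ ∧ θ < 14 / 27 ∧
      0 < δ * (1 - θ) - 2 * Real.log ((1 - θ) / (1 - β)) := by
  have h1 : 0 < 1 - β := by
    have := Real.exp_pos (-(13 * δ / 54))
    linarith
  have h2 : 0 < δ * (1 - 14 / 27) - 2 * Real.log ((1 - 14 / 27) / (1 - β)) := by
    have h3 : (1 - 14 / 27) / (1 - β) < Real.exp (13 * δ / 54) := by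
      rw [div_lt_iff₀ h1]
      have h4 : Real.exp (13 * δ / 54) * Real.exp (-(13 * δ / 54)) = 1 := by
        rw [← Real.exp_add]; simp
      have h5 := Real.exp_pos (13 * δ / 54)
      nlinarith
    have h6 : Real.log ((1 - 14 / 27) / (1 - β)) < 13 * δ / 54 := by
      rw [Real.log_lt_iff_lt_exp (by positivity)]
      exact h3
    linarith
  have hc : ContinuousAt (fun θ : ℝ => δ * (1 - θ) - 2 * Real.log ((1 - θ) / (1 - β)))
      (14 / 27) := by
    apply ContinuousAt.sub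
    · fun_prop
    · apply ContinuousAt.mul continuousAt_const
      apply ContinuousAt.log
      · fun_prop
      · have : (0 : ℝ) < (1 - 14 / 27) / (1 - β) := by positivity
        exact this.ne'
  have h3 : ∀ᶠ θ in 𝓝[<] (14 / 27 : ℝ), 0 < δ * (1 - θ) - 2 * Real.log ((1 - θ) / (1 - β)) :=
    (hc.tendsto.mono_left nhdsWithin_le_nhds).eventually_const_lt h2
  have h4 : ∀ᶠ θ in 𝓝[<] (14 / 27 : ℝ), 1 / 2 < θ :=
    (tendsto_id.mono_left nhdsWithin_le_nhds).eventually_const_lt (by norm_num)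
  have h5 : ∀ᶠ θ in 𝓝[<] (14 / 27 : ℝ), θ < 14 / 27 := eventually_mem_nhdsWithin
  obtain ⟨θ, hθ1, hθ2, hθ3⟩ := (h3.and (h4.and h5)).exists
  exact ⟨θ, hθ2, hθ3, hθ1⟩

/-- the final inequality -/
theorem final_arith {a b X L l3 S σ θ R δ T : ℝ}
    (hX : 0 < X) (hL : 0 < L) (hσ : 0 < σ)
    (hθ : θ < 1)
    (hδ : δ * (X / L) ≤ a) (hl3 : l3 ≤ 2 * L) (hb : 0 ≤ b)
    (hT1 : a * L - σ * X ≤ T)
    (hT2 : T ≤ (S * a + σ * X) + (σ * X) + (a * (θ * L) + 2 * (σ * X)) +
      (2 * R + σ) * X + b * l3)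
    (hS : S * a ≤ σ * X)
    (hg : 14 * σ ≤ δ * (1 - θ) - 2 * R) (ha3 : a ≤ 3 * X / L) :
    σ * a ≤ b := by
  have h1 : δ * X ≤ a * L := by
    have := mul_le_mul_of_nonneg_right hδ hL.le
    calc δ * X = δ * (X / L) * L := by field_simp
      _ ≤ a * L := this
  have h2 : δ * X * (1 - θ) ≤ a * L * (1 - θ) := mul_le_mul_of_nonneg_right h1 (by linarith)
  have h3 : 14 * σ * X ≤ (δ * (1 - θ) - 2 * R) * X := mul_le_mul_of_nonneg_right hg hX.le
  have h4 : 7 * σ * X ≤ b * l3 := by nlinarith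
  have h5 : b * l3 ≤ b * (2 * L) := mul_le_mul_of_nonneg_left hl3 hb
  have h6 : a * L ≤ 3 * X := by
    rw [le_div_iff₀ hL] at ha3
    exact ha3
  have h7 : σ * (a * L) ≤ σ * (3 * X) := mul_le_mul_of_nonneg_left h6 hσ.le
  have h8 : σ * a * L ≤ b * L := by nlinarith
  exact le_of_mul_le_mul_right h8 hL

end Pool.Agent.W23.DS
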