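import Pool.Agent.W23.DSc

set_option autoImplicit false

/-!
Large prime factors of `N - p`, `p` in a dense set of primes: the theorem.
-/

namespace Pool.Agent.W23.DS

open Finset ArithmeticFunction Filter Topology

theorem tend_log : Tendsto (fun X : ℕ => Real.log (X : ℝ)) atTop atTop :=
  Real.tendsto_log_atTop.comp tendsto_natCast_atTop_atTop

theorem ev_a {σ : ℝ} (hσ : 0 < σ) : ∀ᶠ X : ℕ in atTop,
    (3 * (X : ℝ) / Real.log X) * (2 * Real.log (Real.log X)) +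
      (2 * (X / Real.log X ^ 2) + 1) * Real.log X ≤ σ * X := by
  have h1 : Tendsto (fun y : ℝ => Real.log y / y) atTop (𝓝 0) := by
    have := Real.isLittleO_log_id_atTop.tendsto_div_nhds_zero
    simpa using this
  have h2 : Tendsto (fun X : ℕ => Real.log (Real.log (X : ℝ)) / Real.log (X : ℝ)) atTop (𝓝 0) :=
    h1.comp tend_log
  have h3 : Tendsto (fun X : ℕ => Real.log (X : ℝ) / (X : ℝ)) atTop (𝓝 0) :=
    h1.comp tendsto_natCast_atTop_atTop
  have h4 : Tendsto (fun X : ℕ => 1 / Real.log (X : ℝ)) atTop (𝓝 0) := by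
    have := tendsto_inv_atTop_zero.comp tend_log
    simpa [Function.comp_def, one_div] using this
  have h5 : Tendsto (fun X : ℕ => 6 * (Real.log (Real.log (X : ℝ)) / Real.log (X : ℝ)) +
      2 * (1 / Real.log (X : ℝ)) + Real.log (X : ℝ) / (X : ℝ)) atTop (𝓝 0) := by
    have := ((h2.const_mul 6).add (h4.const_mul 2)).add h3
    simpa using this
  filter_upwards [h5.eventually_le_const hσ, eventually_ge_atTop 3] with X hX hX3
  have hX0 : (0 : ℝ) < X := by exact_mod_cast (by omega : 0 < X)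
  have hL : 0 < Real.log X := Real.log_pos (by exact_mod_cast (by omega : 1 < X))
  have h6 := mul_le_mul_of_nonneg_right hX hX0.le
  refine le_trans (le_of_eq ?_) h6
  field_simp
  ring

theorem ev_b (σ c : ℝ) (hσ : 0 < σ) : ∀ᶠ X : ℕ in atTop,
    c * (3 * (X : ℝ) / Real.log X) + Real.log (2 * X) ≤ σ * X := by
  have h1 : Tendsto (fun y : ℝ => Real.log y / y) atTop (𝓝 0) := by
    have := Real.isLittleO_log_id_atTop.tendsto_div_nhds_zero
    simpa using this
  have h3 : Tendsto (fun X : ℕ => Real.log (2 * (X : ℝ)) / (2 * (X : ℝ))) atTop (𝓝 0) :=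
    h1.comp (tendsto_natCast_atTop_atTop.const_mul_atTop (by norm_num : (0 : ℝ) < 2))
  have h4 : Tendsto (fun X : ℕ => 1 / Real.log (X : ℝ)) atTop (𝓝 0) := by
    have := tendsto_inv_atTop_zero.comp tend_log
    simpa [Function.comp_def, one_div] using this
  have h5 : Tendsto (fun X : ℕ => 3 * c * (1 / Real.log (X : ℝ)) +
      2 * (Real.log (2 * (X : ℝ)) / (2 * (X : ℝ)))) atTop (𝓝 0) := by
    have := ((h4.const_mul (3 * c)).add (h3.const_mul 2))
    simpa using this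
  filter_upwards [h5.eventually_le_const hσ, eventually_ge_atTop 3] with X hX hX3
  have hX0 : (0 : ℝ) < X := by exact_mod_cast (by omega : 0 < X)
  have hL : 0 < Real.log X := Real.log_pos (by exact_mod_cast (by omega : 1 < X))
  have h6 := mul_le_mul_of_nonneg_right hX hX0.le
  refine le_trans (le_of_eq ?_) h6
  field_simp

theorem ev_rpow (Z t : ℝ) (ht : 0 < t) : ∀ᶠ X : ℕ in atTop, Z ≤ (X : ℝ) ^ t :=
  ((tendsto_rpow_atTop ht).comp tendsto_natCast_atTop_atTop).eventually_ge_atTop Z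

theorem nl1 {σ R : ℝ} (hσ : 0 < σ) (hR : 0 ≤ R) : σ * R * 4 ≤ σ * (4 * (R + 1)) := by nlinarith

theorem nl2 {e X : ℝ} (he : e ≤ 1) (hX : 0 ≤ X) : (2 + e) * X ≤ 3 * X := by nlinarith

theorem nl3 {X : ℝ} (hX : 3 ≤ X) : 2 * X ≤ X ^ 2 := by nlinarith

theorem nl4 {S ε l C L : ℝ} (h3 : S ≤ ε * (l + L) + C) (h4 : 6 * (ε * l + C) ≤ ε * L) :
    S ≤ 7 * ε / 3 * (L / 2) := by nlinarith

theorem nl5 {θ κ σ : ℝ} (hθ : θ ≤ 1) (hκ : 0 ≤ κ) (h : 2 * κ ≤ σ) : θ * (2 * κ) ≤ σ := by nlinarith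

theorem nl6 {e R σ : ℝ} (h : e * R ≤ σ / 4) (h1 : e ≤ 1) (hσ : 0 ≤ σ) :
    (2 + e) * (R + σ / 8) ≤ 2 * R + σ := by nlinarith

theorem nl7 {a L l Y P Z : ℝ} (h1 : a * (2 * l) ≤ P) (h2 : P + (2 * Y + 1) * L ≤ Z)
    (h3 : 0 ≤ (2 * Y + 1) * (2 * l)) : a * L - Z ≤ (a - (2 * Y + 1)) * (L - 2 * l) := by
  nlinarith

theorem dense_large (δ β : ℝ) (hδ : 0 < δ) (hβ0 : 14 / 27 ≤ β)
    (hβ : β < 1 - 13 / 27 * Real.exp (-(13 * δ / 54))) :
    ∃ c K : ℝ, 0 < c ∧ ∃ X₀ : ℕ, ∀ X : ℕ, X₀ ≤ X → ∀ A : Finset ℕ,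
    (∀ p ∈ A, p.Prime ∧ p ≤ X) → δ * (X / Real.log X) ≤ A.card →
    (((Icc (-(2 * X : ℤ)) (2 * X)).filter
      (fun N : ℤ => ((big A N ((X : ℝ) ^ β)).card : ℝ) < c * A.card)).card : ℝ) ≤ K := by
  classical
  obtain ⟨θ, hθ0, hθ1, hg⟩ := exists_theta hβ
  set R := Real.log ((1 - θ) / (1 - β)) with hR
  set g := δ * (1 - θ) - 2 * R with hgdef
  have hβ1 : β < 1 := by
    have := Real.exp_pos (-(13 * δ / 54))
    linarith
  have hR0 : 0 ≤ R := Real.log_nonneg (by rw [le_div_iff₀ (by linarith)]; linarith)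
  set σ := g / 14 with hσdef
  have hσ : 0 < σ := by positivity
  set ε := min (σ / 7) (1 / 4) with hε
  have hε0 : 0 < ε := by positivity
  have hε7 : 7 * ε ≤ σ := by
    have := min_le_left (σ / 7) (1 / 4)
    linarith
  have hε4 : ε ≤ 1 / 4 := min_le_right _ _
  set ε2 := min (σ / (4 * (R + 1))) 1 with hε2
  have hε20 : 0 < ε2 := by positivity
  have hε21 : ε2 ≤ 1 := min_le_right _ _
  have hε2R : ε2 * R ≤ σ / 4 := by
    have h1 : ε2 ≤ σ / (4 * (R + 1)) := min_le_left _ _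
    have h2 : ε2 * R ≤ σ / (4 * (R + 1)) * R := mul_le_mul_of_nonneg_right h1 hR0
    have h3 : σ / (4 * (R + 1)) * R ≤ σ / 4 := by
      rw [div_mul_eq_mul_div, div_le_div_iff₀ (by positivity) (by positivity)]
      exact nl1 hσ hR0
    linarith
  obtain ⟨Z, hZ3, hZ⟩ := Pool.Agent.H617R3.BT.bt ε2 hε20
  obtain ⟨CM, hCM, hm⟩ := mert
  obtain ⟨S, hS0, hS⟩ := nonprime σ hσ
  obtain ⟨Xw, hXw1, hXw⟩ := WS_le θ β (σ / 8) (by linarith) (by linarith) hβ1 (by positivity)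
  obtain ⟨η, C0, hη, hC0, hFC⟩ := Pool.Agent.H442R2.BX.FC_thm θ ε hθ1 hε0
  set κ := min (σ / 2) 1 with hκ
  have hκ0 : 0 < κ := by positivity
  have hκσ : 2 * κ ≤ σ := by
    have := min_le_left (σ / 2) 1
    linarith
  have hκ1 : κ ≤ 1 := min_le_right _ _
  -- eventual conditions
  have E1 : ∀ᶠ X : ℕ in atTop, κ⁻¹ ≤ (X : ℝ) ^ η := ev_rpow _ _ hη
  have E2 : ∀ᶠ X : ℕ in atTop, Z ≤ (X : ℝ) ^ (1 - β) := ev_rpow _ _ (by linarith)
  have E3 : ∀ᶠ X : ℕ in atTop, Z ≤ (X : ℝ) ^ ((1 : ℝ) / 2) := ev_rpow _ _ (by norm_num)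
  have E4 : ∀ᶠ X : ℕ in atTop, Xw ≤ (X : ℝ) := tendsto_natCast_atTop_atTop.eventually_ge_atTop _
  have E5 := ev_a hσ
  have E6 := ev_b σ (θ * Real.log 2 + CM) hσ
  have E7 := ev_b σ S hσ
  have E8 : ∀ᶠ X : ℕ in atTop, 6 * (ε * Real.log 2 + CM) / ε + 10 ≤ Real.log (X : ℝ) :=
    tend_log.eventually_ge_atTop _
  have E9 : ∀ᶠ X : ℕ in atTop, 0 ≤ Real.log (X : ℝ) - 2 * Real.log (Real.log X) := by
    have h1 : Tendsto (fun y : ℝ => Real.log y / y) atTop (𝓝 0) := by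
      have := Real.isLittleO_log_id_atTop.tendsto_div_nhds_zero
      simpa using this
    have h2 : Tendsto (fun X : ℕ => Real.log (Real.log (X : ℝ)) / Real.log (X : ℝ)) atTop (𝓝 0) :=
      h1.comp tend_log
    filter_upwards [h2.eventually_le_const (by norm_num : (0 : ℝ) < 1 / 2),
      tend_log.eventually_ge_atTop 1] with X h3 h4
    rw [div_le_iff₀ (by linarith)] at h3
    linarith
  obtain ⟨X₀, hX₀⟩ := (((((((((E1.and E2).and E3).and E4).and E5).and E6).and E7).and E8).and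
    E9).and (eventually_ge_atTop 3)).exists_forall_of_atTop
  refine ⟨σ, C0 / κ ^ 2 + 1, hσ, X₀, ?_⟩
  intro X hX A hA hAc
  obtain ⟨⟨⟨⟨⟨⟨⟨⟨⟨e1, e2⟩, e3⟩, e4⟩, e5⟩, e6⟩, e7⟩, e8⟩, e9⟩, e10⟩ := hX₀ X hX
  have hX3 : (3 : ℝ) ≤ X := by exact_mod_cast e10
  have hX0 : (0 : ℝ) < X := by linarith
  set L := Real.log (X : ℝ) with hL
  have hL10 : 10 ≤ L := by
    have h1 : 0 ≤ 6 * (ε * Real.log 2 + CM) / ε := by positivity
    linarith
  have hL0 : 0 < L := by linarith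
  have hll : 0 ≤ Real.log L := Real.log_nonneg (by linarith)
  -- the size of A
  have ha3 : (A.card : ℝ) ≤ 3 * X / L := by
    have h1 : (A.card : ℕ) ≤ Pool.Agent.H617R3.BT.cnt X X 1 0 := by
      rw [Pool.Agent.H617R3.BT.cnt_eq]
      apply Finset.card_le_card
      intro p hp
      rw [Pool.Agent.H617R3.BT.mem_pf]
      refine ⟨(hA p hp).1, ?_, by exact_mod_cast (hA p hp).2, ?_⟩
      · rw [sub_self]; exact_mod_cast (hA p hp).1.pos
      · rw [Nat.cast_one]; exact Int.modEq_one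
    have h2 : Z ≤ (X : ℝ) / (1 : ℕ) := by
      rw [Nat.cast_one, div_one]
      refine e3.trans ?_
      calc (X : ℝ) ^ ((1 : ℝ) / 2) ≤ (X : ℝ) ^ (1 : ℝ) :=
            Real.rpow_le_rpow_of_exponent_le (by linarith) (by norm_num)
        _ = X := Real.rpow_one _
    have h3 := hZ 1 0 X X le_rfl h2
    rw [Nat.totient_one, Nat.cast_one, div_one, one_mul] at h3
    have h4 : (A.card : ℝ) ≤ (Pool.Agent.H617R3.BT.cnt X X 1 0 : ℝ) := by exact_mod_cast h1
    refine (h4.trans h3).trans ?_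
    apply div_le_div_of_nonneg_right _ hL0.le
    exact nl2 hε21 hX0.le
  set M : ℕ := 2 * X with hM
  have hMr : (M : ℝ) = 2 * X := by rw [hM]; push_cast; ring
  have hM2 : 2 ≤ M := by omega
  have hlogM : Real.log (M : ℝ) = Real.log 2 + L := by
    rw [hMr, Real.log_mul (by norm_num) hX0.ne']
  have hXM : (X : ℝ) ≤ M := by rw [hMr]; linarith
  -- the exceptional set
  set f : ℕ → ℝ := fun p => if p ∈ A then 1 else 0 with hf
  have hκM : (M : ℝ) ^ (-η) ≤ κ := by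
    rw [Real.rpow_neg (by linarith)]
    have h1 : κ⁻¹ ≤ (M : ℝ) ^ η := e1.trans (Real.rpow_le_rpow hX0.le hXM hη.le)
    have h2 := inv_anti₀ (by positivity) h1
    rwa [inv_inv] at h2
  have hE := hFC M hM2 f (by
    intro p
    rw [hf]
    simp only
    split_ifs <;> simp) κ hκM hκ1
  set E := (Icc (-(M : ℤ)) M).filter (fun a : ℤ => κ * (M / Real.log M) <
      ∑ d ∈ (Pool.Agent.H442R2.BX.roughs ((M : ℝ) ^ ε) ⌊(M : ℝ) ^ θ⌋₊).filter
        (fun d : ℕ => Int.gcd a d = 1), |Pool.Agent.H442R2.BX.Df f M a d|) with hEdef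
  have hsub : (Icc (-(2 * X : ℤ)) (2 * X)).filter
      (fun N : ℤ => ((big A N ((X : ℝ) ^ β)).card : ℝ) < σ * A.card) ⊆ insert 0 E := by
    intro N hN
    rw [mem_filter, mem_Icc] at hN
    obtain ⟨hN1, hN2⟩ := hN
    by_contra hcon
    rw [mem_insert, not_or] at hcon
    obtain ⟨hN0, hNE⟩ := hcon
    have hNabs : |N| ≤ 2 * X := abs_le.2 hN1
    have hNE' : ∑ d ∈ (Pool.Agent.H442R2.BX.roughs ((M : ℝ) ^ ε) ⌊(M : ℝ) ^ θ⌋₊).filter
        (fun d : ℕ => Int.gcd N d = 1), |Pool.Agent.H442R2.BX.Df f M N d| ≤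
        κ * (M / Real.log M) := by
      by_contra h
      apply hNE
      rw [hEdef, mem_filter, mem_Icc]
      refine ⟨?_, not_le.1 h⟩
      rw [hM]
      push_cast
      exact hN1
    refine absurd ?_ (not_le.2 hN2)
    have hAX : ∀ p ∈ A, p ≤ X := fun p hp => (hA p hp).2
    -- the three ranges
    have hsmall : ∑ q ∈ Q 1 ((M : ℝ) ^ ε), Real.log q * (cc A N q : ℝ) ≤ σ * X := by
      have hMe : (M : ℝ) ^ ε ≤ (X : ℝ) ^ ((1 : ℝ) / 2) := by
        have h1 : (M : ℝ) ≤ (X : ℝ) ^ (2 : ℝ) := by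
          rw [hMr, Real.rpow_two]
          exact nl3 hX3
        calc (M : ℝ) ^ ε ≤ (M : ℝ) ^ ((1 : ℝ) / 4) :=
              Real.rpow_le_rpow_of_exponent_le (by linarith) hε4
          _ ≤ ((X : ℝ) ^ (2 : ℝ)) ^ ((1 : ℝ) / 4) := Real.rpow_le_rpow (by linarith) h1 (by norm_num)
          _ = (X : ℝ) ^ ((1 : ℝ) / 2) := by
              rw [← Real.rpow_mul hX0.le]; norm_num
      have hhalf : (X : ℝ) / (X : ℝ) ^ ((1 : ℝ) / 2) = (X : ℝ) ^ ((1 : ℝ) / 2) := by
        rw [div_eq_iff (by positivity), ← Real.rpow_add hX0]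
        norm_num
      have hq : ∀ q ∈ Q 1 ((M : ℝ) ^ ε), q.Prime ∧ (X : ℝ) ^ ((1 : ℝ) / 2) ≤ X / q := by
        intro q hq
        rw [mem_Q] at hq
        refine ⟨hq.1, ?_⟩
        rw [← hhalf]
        apply div_le_div_of_nonneg_left hX0.le (by exact_mod_cast hq.1.pos)
        exact hq.2.2.trans hMe
      have h1 := upp_le hZ (N := N) hA (Q 1 ((M : ℝ) ^ ε))
        (fun q hq' => ⟨(hq q hq').1, e3.trans (hq q hq').2⟩)
      have h2 : ∑ q ∈ Q 1 ((M : ℝ) ^ ε), Real.log q / (((q : ℝ) - 1) * Real.log (X / q)) ≤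
          (∑ q ∈ Q 1 ((M : ℝ) ^ ε), Real.log q / ((q : ℝ) - 1)) / (L / 2) := by
        rw [Finset.sum_div]
        apply Finset.sum_le_sum
        intro q hq'
        have h3 := hq q hq'
        have h4 : (2 : ℝ) ≤ q := by exact_mod_cast h3.1.two_le
        have h5 : L / 2 ≤ Real.log (X / q) := by
          have := Real.log_le_log (by positivity) h3.2
          rw [Real.log_rpow hX0] at this
          linarith
        rw [div_div]
        apply div_le_div_of_nonneg_left (Real.log_nonneg (by linarith))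
        · have : (0 : ℝ) < (q : ℝ) - 1 := by linarith
          positivity
        · exact mul_le_mul_of_nonneg_left h5 (by linarith)
      have h3 := hm 1 ((M : ℝ) ^ ε) le_rfl (Real.one_le_rpow (by linarith) hε0.le)
      rw [Real.log_rpow (by linarith), Real.log_one, sub_zero, hlogM] at h3
      have h4 : 6 * (ε * Real.log 2 + CM) ≤ ε * L := by
        have h5 : 6 * (ε * Real.log 2 + CM) / ε ≤ L := by linarith
        rw [div_le_iff₀ hε0] at h5
        linarith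
      have h5 : (∑ q ∈ Q 1 ((M : ℝ) ^ ε), Real.log q / ((q : ℝ) - 1)) / (L / 2) ≤ 7 * ε / 3 := by
        rw [div_le_iff₀ (by positivity)]
        exact nl4 h3 h4
      have h6 : (2 + ε2) * (X : ℝ) ≤ 3 * X := nl2 hε21 hX0.le
      calc _ ≤ (2 + ε2) * X * (7 * ε / 3) :=
            h1.trans (mul_le_mul_of_nonneg_left (h2.trans h5) (by positivity))
        _ ≤ 3 * X * (7 * ε / 3) := mul_le_mul_of_nonneg_right h6 (by positivity)
        _ = 7 * ε * X := by ring
        _ ≤ σ * X := mul_le_mul_of_nonneg_right hε7 hX0.le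
    have hmid : ∑ q ∈ Q ((M : ℝ) ^ ε) ((M : ℝ) ^ θ), Real.log q * (cc A N q : ℝ) ≤
        A.card * (θ * L) + 2 * (σ * X) := by
      have h1 := mid_le (A := A) (N := N) (X := X) (θ := θ) (ε := ε) hA hNabs hN0 hε0 (by omega)
      rw [← hM] at h1
      have h2 := hm ((M : ℝ) ^ ε) ((M : ℝ) ^ θ) (Real.one_le_rpow (by linarith) hε0.le)
        (Real.rpow_le_rpow_of_exponent_le (by linarith) (by linarith))
      rw [Real.log_rpow (by linarith), Real.log_rpow (by linarith)] at h2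
      have h3 : 0 ≤ ε * Real.log (M : ℝ) := by
        rw [hlogM]; positivity
      have h4 : A.card * ∑ q ∈ Q ((M : ℝ) ^ ε) ((M : ℝ) ^ θ), Real.log q / ((q : ℝ) - 1) ≤
          A.card * (θ * L) + (θ * Real.log 2 + CM) * (3 * X / L) := by
        have h5 : ∑ q ∈ Q ((M : ℝ) ^ ε) ((M : ℝ) ^ θ), Real.log q / ((q : ℝ) - 1) ≤
            θ * L + (θ * Real.log 2 + CM) := by
          rw [hlogM] at h2 h3
          linarith
        have h6 : (0 : ℝ) ≤ θ * Real.log 2 + CM := by positivity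
        have h7 : (A.card : ℝ) * (θ * Real.log 2 + CM) ≤ (3 * X / L) * (θ * Real.log 2 + CM) :=
          mul_le_mul_of_nonneg_right ha3 h6
        have h8 := mul_le_mul_of_nonneg_left h5 (Nat.cast_nonneg (α := ℝ) A.card)
        linarith
      have h5 : Real.log ((M : ℝ) ^ θ) * (κ * (M / Real.log M)) ≤ σ * X := by
        rw [Real.log_rpow (by linarith)]
        have hlM : 0 < Real.log (M : ℝ) := by rw [hlogM]; positivity
        have h6 : θ * Real.log (M : ℝ) * (κ * (M / Real.log M)) = θ * (2 * κ) * X := by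
          rw [hMr] at hlM ⊢
          field_simp
        rw [h6]
        apply mul_le_mul_of_nonneg_right _ hX0.le
        exact nl5 (by linarith) hκ0.le hκσ
      have h6 : Real.log ((M : ℝ) ^ θ) *
          ∑ d ∈ (Pool.Agent.H442R2.BX.roughs ((M : ℝ) ^ ε) ⌊(M : ℝ) ^ θ⌋₊).filter
            (fun d : ℕ => Int.gcd N d = 1), |Pool.Agent.H442R2.BX.Df f M N d| ≤
          Real.log ((M : ℝ) ^ θ) * (κ * (M / Real.log M)) := by
        apply mul_le_mul_of_nonneg_left hNE'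
        exact Real.log_nonneg (Real.one_le_rpow (by linarith) (by linarith))
      linarith
    have hupp : ∑ q ∈ Q ((M : ℝ) ^ θ) ((X : ℝ) ^ β), Real.log q * (cc A N q : ℝ) ≤
        (2 * R + σ) * X := by
      have hq : ∀ q ∈ Q ((X : ℝ) ^ θ) ((X : ℝ) ^ β), q.Prime ∧ Z ≤ X / q := by
        intro q hq
        rw [mem_Q] at hq
        refine ⟨hq.1, e2.trans ?_⟩
        have h1 : (X : ℝ) ^ (1 - β) = X / (X : ℝ) ^ β := by
          rw [Real.rpow_sub hX0, Real.rpow_one]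
        rw [h1]
        apply div_le_div_of_nonneg_left hX0.le (by exact_mod_cast hq.1.pos) hq.2.2
      have h0 : ∑ q ∈ Q ((M : ℝ) ^ θ) ((X : ℝ) ^ β), Real.log q * (cc A N q : ℝ) ≤
          ∑ q ∈ Q ((X : ℝ) ^ θ) ((X : ℝ) ^ β), Real.log q * (cc A N q : ℝ) := by
        apply Finset.sum_le_sum_of_subset_of_nonneg
        · intro q hq
          rw [mem_Q] at hq ⊢
          refine ⟨hq.1, lt_of_le_of_lt ?_ hq.2.1, hq.2.2⟩
          exact Real.rpow_le_rpow hX0.le hXM (by linarith)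
        · intro q _ _
          exact mul_nonneg (Real.log_natCast_nonneg _) (Nat.cast_nonneg _)
      have h1 := upp_le hZ (N := N) hA (Q ((X : ℝ) ^ θ) ((X : ℝ) ^ β)) hq
      have h2 := hXw X e4
      unfold WS at h2
      have h3 : (2 + ε2) * (R + σ / 8) ≤ 2 * R + σ := nl6 hε2R hε21 hσ.le
      calc _ ≤ (2 + ε2) * X * (R + σ / 8) :=
            h0.trans (h1.trans (mul_le_mul_of_nonneg_left h2 (by positivity)))
        _ = (2 + ε2) * (R + σ / 8) * X := by ring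
        _ ≤ _ := mul_le_mul_of_nonneg_right h3 hX0.le
    have htop := top_le hAX hNabs ((X : ℝ) ^ β) (by omega : 1 ≤ X)
    have hsplit := prime_split (A := A) (N := N) (X := X) ((M : ℝ) ^ ε) ((M : ℝ) ^ θ) ((X : ℝ) ^ β)
    have hnp := hS A N X hAX hNabs
    have hTe := T_eq hAX hNabs
    have hTs : ∑ d ∈ Icc 1 (3 * X), Λ d * (cc A N d : ℝ) =
        ∑ d ∈ (Icc 1 (3 * X)).filter (fun d => d.Prime), Λ d * (cc A N d : ℝ) +
        ∑ d ∈ (Icc 1 (3 * X)).filter (fun d => ¬ d.Prime), Λ d * (cc A N d : ℝ) :=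
      (Finset.sum_filter_add_sum_filter_not _ _ _).symm
    have hTg := T_ge (A := A) (N := N) (X := X) hL0 (by linarith) e9
    rw [hTe] at hTg
    have hS3 : S * A.card ≤ σ * X := by
      have h1 : S * (A.card : ℝ) ≤ S * (3 * X / L) := mul_le_mul_of_nonneg_left ha3 hS0
      have h2 : 0 ≤ Real.log (2 * (X : ℝ)) := Real.log_nonneg (by linarith)
      linarith
    have hT1 : A.card * L - σ * X ≤ ∑ d ∈ Icc 1 (3 * X), Λ d * (cc A N d : ℝ) := by
      refine le_trans ?_ hTg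
      have h1 : 0 ≤ (X : ℝ) / L ^ 2 := by positivity
      have h2 : (A.card : ℝ) * (2 * Real.log L) ≤ (3 * X / L) * (2 * Real.log L) :=
        mul_le_mul_of_nonneg_right ha3 (by linarith)
      have h3 : 0 ≤ (2 * ((X : ℝ) / L ^ 2) + 1) * (2 * Real.log L) := by positivity
      exact nl7 h2 e5 h3
    refine final_arith (X := X) (L := L) (l3 := Real.log (3 * X)) (S := S) (θ := θ) (R := R)
      (δ := δ) (T := ∑ d ∈ Icc 1 (3 * X), Λ d * (cc A N d : ℝ)) hX0 hL0 hσ (by linarith) hAc ?_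
      (Nat.cast_nonneg _) hT1 ?_ hS3 ?_ ha3
    · rw [Real.log_mul (by norm_num) hX0.ne']
      have : Real.log 3 ≤ L := Real.log_le_log (by norm_num) hX3
      linarith
    · rw [hTs]
      linarith
    · rw [hσdef, hgdef]; linarith
  have h1 := Finset.card_le_card hsub
  have h2 : (insert (0 : ℤ) E).card ≤ E.card + 1 := Finset.card_insert_le _ _
  have h3 : (((Icc (-(2 * X : ℤ)) (2 * X)).filter
      (fun N : ℤ => ((big A N ((X : ℝ) ^ β)).card : ℝ) < σ * A.card)).card : ℝ) ≤ E.card + 1 := by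
    exact_mod_cast h1.trans h2
  linarith

end Pool.Agent.W23.DS
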