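import Pool.Agent.Helper923.PPS.Selberg

set_option autoImplicit false

/-!
Selberg's sieve with the bounds `|λ_d| ≤ 1` and `3^ν(d)`.
-/

open Finset Nat ArithmeticFunction BoundingSieve
open scoped ArithmeticFunction.Moebius

namespace Pool.Agent.W23.UB

open Pool.Agent.Helper923.PPS

section Selberg

variable (s : BoundingSieve) (R : ℝ)

/-- the part of the Selberg sum coprime to `d`, up to `R / d` -/
noncomputable def selT (d : ℕ) : ℝ :=
  ∑ m ∈ (divisors s.prodPrimes).filter (fun m : ℕ => Nat.Coprime m d ∧ (m * d : ℝ) ≤ R),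
    s.selbergTerms m

theorem selT_nonneg (d : ℕ) : 0 ≤ selT s R d := by
  unfold selT
  apply Finset.sum_nonneg
  intro l hl
  rw [Finset.mem_filter, Nat.mem_divisors] at hl
  exact (selbergTerms_pos hl.1.1).le

/-- the multiples of `d` -/
theorem sum_mult_eq {d : ℕ} (hd : d ∣ s.prodPrimes) :
    (∑ l ∈ (divisors s.prodPrimes).filter (fun l : ℕ => d ∣ l ∧ (l : ℝ) ≤ R), s.selbergTerms l) =
      s.selbergTerms d * selT s R d := by
  have hP0 : s.prodPrimes ≠ 0 := prodPrimes_ne_zero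
  have hd0 : 0 < d := Nat.pos_of_ne_zero (ne_zero_of_dvd_ne_zero hP0 hd)
  have himg : (divisors s.prodPrimes).filter (fun l : ℕ => d ∣ l ∧ (l : ℝ) ≤ R) =
      ((divisors s.prodPrimes).filter (fun m : ℕ => Nat.Coprime m d ∧ (m * d : ℝ) ≤ R)).image
        (fun m => m * d) := by
    ext l
    simp only [Finset.mem_filter, Nat.mem_divisors, Finset.mem_image]
    constructor
    · rintro ⟨⟨h1, _⟩, ⟨k, rfl⟩, h3⟩
      have hsq : Squarefree (d * k) := s.prodPrimes_squarefree.squarefree_of_dvd h1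
      refine ⟨k, ⟨⟨(Dvd.intro_left d rfl).trans h1, hP0⟩, (coprime_of_squarefree_mul hsq).symm, ?_⟩,
        mul_comm k d⟩
      push_cast at h3
      linarith
    · rintro ⟨k, ⟨⟨h1, _⟩, h2, h3⟩, rfl⟩
      refine ⟨⟨Nat.Coprime.mul_dvd_of_dvd_of_dvd h2 h1 hd, hP0⟩, Dvd.intro_left k rfl, ?_⟩
      push_cast
      exact h3
  rw [himg, Finset.sum_image (by
    intro a _ b _ hab
    exact Nat.eq_of_mul_eq_mul_right hd0 hab)]
  unfold selT
  rw [Finset.mul_sum]
  apply Finset.sum_congr rfl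
  intro m hm
  rw [Finset.mem_filter] at hm
  rw [selbergTerms_isMultiplicative.map_mul_of_coprime hm.2.1]
  ring

/-- lower bound for the Selberg sum -/
theorem selS_ge_selT {d : ℕ} (hd : d ∣ s.prodPrimes) :
    s.selbergTerms d * (s.nu d)⁻¹ * selT s R d ≤ selS s R := by
  have hP0 : s.prodPrimes ≠ 0 := prodPrimes_ne_zero
  have hd0 : 0 < d := Nat.pos_of_ne_zero (ne_zero_of_dvd_ne_zero hP0 hd)
  rw [← sum_divisors_selbergTerms_eq_selbergTerms_mul_nu_inv hd, ← Finset.sum_filter]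
  unfold selT
  rw [Finset.sum_mul_sum, ← Finset.sum_product']
  set S1 := (divisors s.prodPrimes).filter (fun l => l ∣ d) with hS1
  set S2 := (divisors s.prodPrimes).filter (fun m : ℕ => Nat.Coprime m d ∧ (m * d : ℝ) ≤ R) with hS2
  have hcop : ∀ x ∈ S1 ×ˢ S2, Nat.Coprime x.1 x.2 := by
    intro x hx
    rw [Finset.mem_product, hS1, hS2, Finset.mem_filter, Finset.mem_filter] at hx
    exact (Nat.Coprime.coprime_dvd_right hx.1.2 hx.2.2.1).symm
  have h1 : ∑ x ∈ S1 ×ˢ S2, s.selbergTerms x.1 * s.selbergTerms x.2 =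
      ∑ x ∈ S1 ×ˢ S2, s.selbergTerms (x.1 * x.2) := by
    apply Finset.sum_congr rfl
    intro x hx
    rw [selbergTerms_isMultiplicative.map_mul_of_coprime (hcop x hx)]
  rw [h1]
  have hinj : ∀ x ∈ S1 ×ˢ S2, ∀ y ∈ S1 ×ˢ S2, x.1 * x.2 = y.1 * y.2 → x = y := by
    intro x hx y hy hxy
    rw [Finset.mem_product, hS1, hS2, Finset.mem_filter, Finset.mem_filter] at hx hy
    have e1 : Nat.gcd (x.1 * x.2) d = x.1 := by
      rw [Nat.Coprime.gcd_mul_right_cancel _ hx.2.2.1]
      exact Nat.gcd_eq_left hx.1.2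
    have e2 : Nat.gcd (y.1 * y.2) d = y.1 := by
      rw [Nat.Coprime.gcd_mul_right_cancel _ hy.2.2.1]
      exact Nat.gcd_eq_left hy.1.2
    have e3 : x.1 = y.1 := by rw [← e1, ← e2, hxy]
    have hx0 : 0 < x.1 := Nat.pos_of_dvd_of_pos hx.1.2 hd0
    have e4 : x.2 = y.2 := by
      rw [e3] at hxy
      exact Nat.eq_of_mul_eq_mul_left (e3 ▸ hx0) hxy
    exact Prod.ext e3 e4
  have h2 : ∑ x ∈ S1 ×ˢ S2, s.selbergTerms (x.1 * x.2) =
      ∑ l ∈ (S1 ×ˢ S2).image (fun x => x.1 * x.2), s.selbergTerms l := by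
    rw [Finset.sum_image hinj]
  rw [h2]
  unfold selS
  apply Finset.sum_le_sum_of_subset_of_nonneg
  · intro l hl
    rw [Finset.mem_image] at hl
    obtain ⟨x, hx, rfl⟩ := hl
    have hc := hcop x hx
    rw [Finset.mem_product, hS1, hS2, Finset.mem_filter, Finset.mem_filter, Nat.mem_divisors,
      Nat.mem_divisors] at hx
    rw [Finset.mem_filter, Nat.mem_divisors]
    refine ⟨⟨Nat.Coprime.mul_dvd_of_dvd_of_dvd hc hx.1.1.1 hx.2.1.1, hP0⟩, ?_⟩
    push_cast
    have h3 : (x.1 : ℝ) ≤ d := by exact_mod_cast Nat.le_of_dvd hd0 hx.1.2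
    calc (x.1 : ℝ) * x.2 ≤ d * x.2 := mul_le_mul_of_nonneg_right h3 (Nat.cast_nonneg _)
      _ = x.2 * d := mul_comm _ _
      _ ≤ R := hx.2.2.2
  · intro l hl _
    rw [Finset.mem_filter, Nat.mem_divisors] at hl
    exact (selbergTerms_pos hl.1.1).le

theorem abs_selW_le_one (hR : 1 ≤ R) {d : ℕ} (hd : d ∣ s.prodPrimes) : |selW s R d| ≤ 1 := by
  have hnu : 0 < s.nu d := nu_pos_of_dvd_prodPrimes hd
  have hS := selS_pos s R hR
  have hg := selbergTerms_pos (s := s) hd
  have hT := selT_nonneg s R d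
  have h1 := selS_ge_selT s R hd
  unfold selW
  rw [sum_mult_eq s R hd]
  have hμ : |((μ d : ℤ) : ℝ)| ≤ 1 := by
    have : |μ d| ≤ 1 := abs_moebius_le_one
    exact_mod_cast this
  rw [abs_mul, abs_mul, abs_mul, abs_of_nonneg (mul_nonneg hg.le hT), abs_of_pos (inv_pos.mpr hnu),
    abs_of_pos (inv_pos.mpr hS)]
  calc (s.nu d)⁻¹ * |((μ d : ℤ) : ℝ)| * (selS s R)⁻¹ * (s.selbergTerms d * selT s R d)
      ≤ (s.nu d)⁻¹ * 1 * (selS s R)⁻¹ * (s.selbergTerms d * selT s R d) := by
        have h2 : 0 ≤ s.selbergTerms d * selT s R d := mul_nonneg hg.le hT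
        gcongr
    _ = (s.selbergTerms d * (s.nu d)⁻¹ * selT s R d) * (selS s R)⁻¹ := by ring
    _ ≤ selS s R * (selS s R)⁻¹ := by gcongr
    _ = 1 := mul_inv_cancel₀ hS.ne'

theorem abs_lambda_le (hR : 1 ≤ R) {d : ℕ} (hd : d ∣ s.prodPrimes) :
    |lambdaSquared (selW s R) d| ≤ if (d : ℝ) ≤ R ^ 2 then (3 : ℝ) ^ d.primeFactors.card else 0 := by
  have hP0 : s.prodPrimes ≠ 0 := prodPrimes_ne_zero
  have hd0 : 0 < d := Nat.pos_of_ne_zero (ne_zero_of_dvd_ne_zero hP0 hd)
  have hsq := squarefree_of_dvd_prodPrimes hd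
  unfold lambdaSquared
  have h1 : |∑ d1 ∈ d.divisors, ∑ d2 ∈ d.divisors,
      if d = Nat.lcm d1 d2 then selW s R d1 * selW s R d2 else 0| ≤
      ∑ d1 ∈ d.divisors, ∑ d2 ∈ d.divisors, if d = Nat.lcm d1 d2 then
        (if (d : ℝ) ≤ R ^ 2 then 1 else 0) else 0 := by
    refine (Finset.abs_sum_le_sum_abs _ _).trans ?_
    apply Finset.sum_le_sum
    intro d1 hd1
    refine (Finset.abs_sum_le_sum_abs _ _).trans ?_
    apply Finset.sum_le_sum
    intro d2 hd2
    have hd1' := (Nat.mem_divisors.1 hd1).1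
    have hd2' := (Nat.mem_divisors.1 hd2).1
    by_cases h : d = Nat.lcm d1 d2
    · rw [if_pos h, if_pos h]
      by_cases h2 : (d : ℝ) ≤ R ^ 2
      · rw [if_pos h2, abs_mul]
        have e1 := abs_selW_le_one s R hR (hd1'.trans hd)
        have e2 := abs_selW_le_one s R hR (hd2'.trans hd)
        exact mul_le_one₀ e1 (abs_nonneg _) e2
      · rw [if_neg h2]
        have h3 : R < d1 ∨ R < d2 := by
          by_contra hcon
          rw [not_or, not_lt, not_lt] at hcon
          apply h2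
          have h4 : d ≤ d1 * d2 := by
            rw [h]
            exact Nat.le_of_dvd (Nat.mul_pos (Nat.pos_of_dvd_of_pos hd1' hd0)
              (Nat.pos_of_dvd_of_pos hd2' hd0)) (Nat.lcm_dvd_mul _ _)
          have h5 : (d : ℝ) ≤ d1 * d2 := by exact_mod_cast h4
          have h6 : (d1 : ℝ) * d2 ≤ R * R := by
            gcongr
            · exact hcon.1
            · exact hcon.2
          nlinarith
        rcases h3 with h3 | h3
        · rw [selW_eq_zero s R h3]; simp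
        · rw [selW_eq_zero s R h3]; simp
    · rw [if_neg h, if_neg h, abs_zero]
  refine h1.trans (le_of_eq ?_)
  by_cases h2 : (d : ℝ) ≤ R ^ 2
  · simp only [if_pos h2]
    have h3 := Nat.card_pair_lcm_eq hsq
    rw [ArithmeticFunction.cardDistinctFactors_apply, ← List.card_toFinset] at h3
    have h4 : (d.primeFactorsList.toFinset).card = d.primeFactors.card := rfl
    rw [h4] at h3
    rw [← Finset.sum_product', ← Finset.sum_filter, Finset.sum_const, nsmul_eq_mul, mul_one]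
    have h5 : (d.divisors ×ˢ d.divisors).filter (fun p : ℕ × ℕ => d = Nat.lcm p.1 p.2) =
        (d.divisors ×ˢ d.divisors).filter (fun p : ℕ × ℕ => Nat.lcm p.1 p.2 = d) := by
      apply Finset.filter_congr
      intro p _
      exact eq_comm
    rw [h5, h3]
    push_cast
    rfl
  · simp only [if_neg h2]
    simp

/-- Selberg's sieve, with the remainder in the usual form. -/
theorem selberg (hR : 1 ≤ R) :
    s.siftedSum ≤ s.totalMass / selS s R +
      ∑ d ∈ (divisors s.prodPrimes).filter (fun d : ℕ => (d : ℝ) ≤ R ^ 2),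
        (3 : ℝ) ^ d.primeFactors.card * |s.rem d| := by
  have h := siftedSum_le_mainSum_errSum_of_upperMoebius (s := s)
    (lambdaSquared (selW s R)) (upperMoebius_lambdaSquared _ (selW_one s R hR))
  rw [mainSum_selW s R hR] at h
  refine h.trans ?_
  rw [div_eq_mul_inv]
  gcongr
  unfold errSum
  rw [Finset.sum_filter]
  apply Finset.sum_le_sum
  intro d hd
  have hdP := Nat.dvd_of_mem_divisors hd
  have h1 := abs_lambda_le s R hR hdP
  have h2 := mul_le_mul_of_nonneg_right h1 (abs_nonneg (s.rem d))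
  refine h2.trans (le_of_eq ?_)
  split_ifs <;> simp

end Selberg

end Pool.Agent.W23.UB
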