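import Pool.Agent.W23.UBa
import Pool.Agent.H307R2.OP.BT4

set_option autoImplicit false

/-!
The Selberg sum for the Goldbach problem.
-/

open Finset Nat ArithmeticFunction BoundingSieve
open scoped ArithmeticFunction.Moebius

namespace Pool.Agent.W23.UB

open Pool.Agent.Helper923.PPS

/-- `∏_{p | n} 1/(p-2)` -/
noncomputable def gg : ArithmeticFunction ℝ :=
  ArithmeticFunction.prodPrimeFactors (fun p : ℕ => ((p : ℝ) - 2)⁻¹)

theorem gg_mult : gg.IsMultiplicative := ArithmeticFunction.IsMultiplicative.prodPrimeFactors _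

theorem gg_apply {n : ℕ} (hn : n ≠ 0) : gg n = ∏ p ∈ n.primeFactors, ((p : ℝ) - 2)⁻¹ :=
  ArithmeticFunction.prodPrimeFactors_apply hn

theorem gg_prime {p : ℕ} (hp : p.Prime) : gg p = ((p : ℝ) - 2)⁻¹ := by
  rw [gg_apply hp.ne_zero, hp.primeFactors, Finset.prod_singleton]

theorem odd_prime_ge {n p : ℕ} (hn : Odd n) (hp : p ∈ n.primeFactors) : 3 ≤ p := by
  rw [Nat.mem_primeFactors] at hp
  have h1 : Odd p := Odd.of_dvd_nat hn hp.2.1
  have h2 := hp.1.two_le
  rcases h1 with ⟨k, rfl⟩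
  omega

theorem gg_pos {n : ℕ} (hn : Odd n) : 0 < gg n := by
  have h0 : n ≠ 0 := by rintro rfl; simp at hn
  rw [gg_apply h0]
  apply Finset.prod_pos
  intro p hp
  have h1 := odd_prime_ge hn hp
  have h2 : (3 : ℝ) ≤ p := by exact_mod_cast h1
  have : (0 : ℝ) < (p : ℝ) - 2 := by linarith
  positivity

/-- squarefree numbers up to `R` coprime to `N` -/
def SQ (N R : ℕ) : Finset ℕ := (Icc 1 R).filter (fun l => Squarefree l ∧ Nat.Coprime l N)

theorem mem_SQ {N R l : ℕ} : l ∈ SQ N R ↔ (1 ≤ l ∧ l ≤ R) ∧ Squarefree l ∧ Nat.Coprime l N := by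
  unfold SQ
  rw [mem_filter, mem_Icc]

theorem odd_of_coprime {l N : ℕ} (hN : Even N) (h : Nat.Coprime l N) : Odd l := by
  rw [← Nat.coprime_two_right]
  exact Nat.Coprime.coprime_dvd_right hN.two_dvd h

/-- the Selberg sum -/
noncomputable def GN (N R : ℕ) : ℝ := ∑ l ∈ SQ N R, gg l

/-- odd squarefree kernel -/
noncomputable def oddRad (N : ℕ) : ℕ := ∏ p ∈ N.primeFactors.filter (fun p => 2 < p), p

theorem oddRad_sqf (N : ℕ) : Squarefree (oddRad N) := by
  unfold oddRad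
  refine Finset.squarefree_prod_of_pairwise_isCoprime (fun p hp r hr hpr ↦ ?_) fun p hp ↦ ?_
  · have h1 := (Nat.mem_primeFactors.1 (Finset.mem_filter.mp hp).1).1
    have h2 := (Nat.mem_primeFactors.1 (Finset.mem_filter.mp hr).1).1
    simp only [← coprime_iff_isRelPrime]
    exact (coprime_primes h1 h2).mpr hpr
  · exact (Nat.mem_primeFactors.1 (Finset.mem_filter.mp hp).1).1.squarefree

theorem prime_dvd_oddRad {N p : ℕ} (hp : p.Prime) : p ∣ oddRad N ↔ p ∈ N.primeFactors ∧ 2 < p := by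
  unfold oddRad
  rw [Prime.dvd_finsetProd_iff hp.prime]
  constructor
  · rintro ⟨r, hr, hpr⟩
    rw [Finset.mem_filter, Nat.mem_primeFactors] at hr
    have : p = r := (Nat.prime_dvd_prime_iff_eq hp hr.1.1).mp hpr
    subst this
    exact ⟨Nat.mem_primeFactors.2 hr.1, hr.2⟩
  · rintro ⟨h1, h2⟩
    exact ⟨p, mem_filter.2 ⟨h1, h2⟩, dvd_rfl⟩

theorem oddRad_odd (N : ℕ) : Odd (oddRad N) := by
  rw [← Nat.not_even_iff_odd, even_iff_two_dvd]
  intro h
  have := (prime_dvd_oddRad Nat.prime_two).1 h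
  omega

theorem oddRad_primeFactors (N : ℕ) :
    (oddRad N).primeFactors = N.primeFactors.filter (fun p => 2 < p) := by
  ext p
  rw [mem_filter, Nat.mem_primeFactors]
  constructor
  · rintro ⟨h1, h2, _⟩
    exact (prime_dvd_oddRad h1).1 h2
  · intro h
    have hp := (Nat.mem_primeFactors.1 h.1).1
    exact ⟨hp, (prime_dvd_oddRad hp).2 h, (oddRad_sqf N).ne_zero⟩

/-- sum of `gg` over divisors of an odd squarefree number -/
theorem sum_gg_divisors {n : ℕ} (hn : Squarefree n) :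
    ∑ k ∈ n.divisors, gg k = ∏ p ∈ n.primeFactors, (1 + ((p : ℝ) - 2)⁻¹) := by
  have h := gg_mult.prodPrimeFactors_one_add_of_squarefree hn
  rw [← h]
  apply Finset.prod_congr rfl
  intro p hp
  rw [gg_prime (Nat.mem_primeFactors.1 hp).1]

theorem M1 {N R : ℕ} (hN : Even N) (hN0 : N ≠ 0) :
    GN 2 R ≤ (∏ p ∈ N.primeFactors.filter (fun p => 2 < p), (1 + ((p : ℝ) - 2)⁻¹)) * GN N R := by
  have h1 : (∏ p ∈ N.primeFactors.filter (fun p => 2 < p), (1 + ((p : ℝ) - 2)⁻¹)) =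
      ∑ k ∈ (oddRad N).divisors, gg k := by
    rw [sum_gg_divisors (oddRad_sqf N), oddRad_primeFactors]
  rw [h1]
  unfold GN
  rw [Finset.sum_mul_sum, ← Finset.sum_product']
  set F : ℕ → ℕ × ℕ := fun l => (Nat.gcd l N, l / Nat.gcd l N) with hF
  have key : ∀ l ∈ SQ 2 R, (F l ∈ (oddRad N).divisors ×ˢ SQ N R) ∧
      gg l = gg (F l).1 * gg (F l).2 ∧ (F l).1 * (F l).2 = l := by
    intro l hl
    rw [mem_SQ] at hl
    obtain ⟨⟨hl1, hlR⟩, hsq, hodd⟩ := hl
    have hg0 : 0 < Nat.gcd l N := Nat.gcd_pos_of_pos_left _ hl1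
    have hmul : Nat.gcd l N * (l / Nat.gcd l N) = l := Nat.mul_div_cancel' (Nat.gcd_dvd_left _ _)
    have hsq' : Squarefree (Nat.gcd l N * (l / Nat.gcd l N)) := by rw [hmul]; exact hsq
    have hcop : Nat.Coprime (Nat.gcd l N) (l / Nat.gcd l N) := coprime_of_squarefree_mul hsq'
    have hm0 : 0 < l / Nat.gcd l N := Nat.div_pos (Nat.le_of_dvd hl1 (Nat.gcd_dvd_left _ _)) hg0
    refine ⟨?_, ?_, hmul⟩
    · rw [Finset.mem_product, hF]
      simp only
      rw [Nat.mem_divisors, mem_SQ]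
      refine ⟨⟨?_, (oddRad_sqf N).ne_zero⟩, ⟨hm0, (Nat.div_le_self _ _).trans hlR⟩,
        hsq.squarefree_of_dvd (Nat.div_dvd_of_dvd (Nat.gcd_dvd_left _ _)), ?_⟩
      · -- gcd divides oddRad
        have hs : Squarefree (Nat.gcd l N) := hsq.squarefree_of_dvd (Nat.gcd_dvd_left _ _)
        rw [← Nat.prod_primeFactors_of_squarefree hs]
        unfold oddRad
        apply Finset.prod_dvd_prod_of_subset
        intro p hp
        rw [Nat.mem_primeFactors] at hp
        rw [mem_filter, Nat.mem_primeFactors]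
        refine ⟨⟨hp.1, hp.2.1.trans (Nat.gcd_dvd_right _ _), hN0⟩, ?_⟩
        have h2 : Odd l := Nat.coprime_two_right.1 hodd
        have h3 : p ∈ l.primeFactors :=
          Nat.mem_primeFactors.2 ⟨hp.1, hp.2.1.trans (Nat.gcd_dvd_left _ _), by omega⟩
        have := odd_prime_ge h2 h3
        omega
      · -- coprime to N
        rw [Nat.coprime_iff_gcd_eq_one]
        by_contra hne
        obtain ⟨p, hp, hpd⟩ := Nat.exists_prime_and_dvd hne
        have h2 := hpd.trans (Nat.gcd_dvd_left _ _)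
        have h3 := hpd.trans (Nat.gcd_dvd_right _ _)
        have h4 : p ∣ l := h2.trans (Nat.div_dvd_of_dvd (Nat.gcd_dvd_left _ _))
        have h5 : p ∣ Nat.gcd l N := Nat.dvd_gcd h4 h3
        have h6 := Nat.dvd_gcd h5 h2
        rw [hcop] at h6
        exact hp.one_lt.ne' (Nat.dvd_one.mp h6)
    · rw [hF]
      simp only
      rw [← gg_mult.map_mul_of_coprime hcop, hmul]
  have hinj : ∀ x ∈ SQ 2 R, ∀ y ∈ SQ 2 R, F x = F y → x = y := by
    intro x hx y hy hxy
    rw [← (key x hx).2.2, ← (key y hy).2.2, hxy]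
  have h2 : ∑ l ∈ SQ 2 R, gg l = ∑ x ∈ (SQ 2 R).image F, gg x.1 * gg x.2 := by
    rw [Finset.sum_image hinj]
    exact Finset.sum_congr rfl fun l hl => (key l hl).2.1
  rw [h2]
  apply Finset.sum_le_sum_of_subset_of_nonneg
  · intro x hx
    rw [Finset.mem_image] at hx
    obtain ⟨l, hl, rfl⟩ := hx
    exact (key l hl).1
  · intro x hx _
    rw [Finset.mem_product, Nat.mem_divisors, mem_SQ] at hx
    have h3 : Odd x.1 := Odd.of_dvd_nat (oddRad_odd N) hx.1.1
    have h4 : Odd x.2 := odd_of_coprime hN hx.2.2.2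
    exact (mul_pos (gg_pos h3) (gg_pos h4)).le

/-- the sum of `1/φ` over squarefree numbers coprime to `q` -/
theorem phi_sum_ge {q R : ℕ} (hq : 1 ≤ q) :
    ((Nat.totient q : ℝ) / q) * Real.log ((R : ℝ) + 1) ≤ ∑ e ∈ SQ q R, ((Nat.totient e : ℝ))⁻¹ := by
  refine (Pool.Agent.H307R2.OP.BT4P.selS_ge2 (a := 0) (N := 0) hq).trans ?_
  unfold selS
  have h1 : ∀ l ∈ (Nat.divisors (apSieve 0 q 0 R).prodPrimes).filter (fun l : ℕ => (l : ℝ) ≤ R),
      (apSieve 0 q 0 R).selbergTerms l = ((Nat.totient l : ℕ) : ℝ)⁻¹ := by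
    intro l hl
    rw [Finset.mem_filter, Nat.mem_divisors] at hl
    rw [BoundingSieve.selbergTerms_apply]
    change (l : ℝ)⁻¹ * ∏ p ∈ l.primeFactors, (1 - (p : ℝ)⁻¹)⁻¹ = _
    have h2 : (Nat.totient l : ℝ) = l * ∏ p ∈ l.primeFactors, (1 - (p : ℝ)⁻¹) := by
      have h3 := congrArg (fun z : ℚ => (z : ℝ)) (Nat.totient_eq_mul_prod_factors l)
      push_cast at h3
      exact h3
    rw [h2, mul_inv, Finset.prod_inv_distrib]
  rw [Finset.sum_congr rfl h1]
  apply Finset.sum_le_sum_of_subset_of_nonneg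
  · intro l hl
    rw [Finset.mem_filter, Nat.mem_divisors] at hl
    have hl' : l ∣ PP q R := hl.1.1
    rw [mem_SQ]
    have hl0 : 0 < l := Nat.pos_of_ne_zero (ne_zero_of_dvd_ne_zero (PP_squarefree q R).ne_zero hl')
    exact ⟨⟨hl0, by exact_mod_cast hl.2⟩, (PP_squarefree q R).squarefree_of_dvd hl',
      coprime_of_dvd_PP hl'⟩
  · intro l _ _
    positivity

theorem totient_mul_gg {l : ℕ} (hl : Squarefree l) (hodd : Odd l) :
    (Nat.totient l : ℝ) * gg l = ∑ k ∈ l.divisors, gg k := by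
  rw [sum_gg_divisors hl, gg_apply hl.ne_zero]
  have h2 : (Nat.totient l : ℝ) = ∏ p ∈ l.primeFactors, ((p : ℝ) - 1) := by
    have h3 := congrArg (fun z : ℚ => (z : ℝ)) (Nat.totient_eq_mul_prod_factors l)
    push_cast at h3
    rw [h3]
    have h4 : (l : ℝ) = ∏ p ∈ l.primeFactors, (p : ℝ) := by
      have := Nat.prod_primeFactors_of_squarefree hl
      rw [← Nat.cast_prod, this]
    nth_rewrite 1 [h4]
    rw [← Finset.prod_mul_distrib]
    apply Finset.prod_congr rfl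
    intro p hp
    have : (p : ℝ) ≠ 0 := by
      have := (Nat.mem_primeFactors.1 hp).1.pos
      positivity
    field_simp
  rw [h2, ← Finset.prod_mul_distrib]
  apply Finset.prod_congr rfl
  intro p hp
  have h1 := odd_prime_ge hodd hp
  have h3 : (3 : ℝ) ≤ p := by exact_mod_cast h1
  have h4 : (p : ℝ) - 2 ≠ 0 := by linarith
  field_simp
  ring

theorem M2 {R W : ℕ} (hW : Squarefree W) (hWodd : Odd W) (hWR : W ≤ R) :
    (1 / 2) * (∏ p ∈ W.primeFactors, (1 + ((p : ℝ) - 2)⁻¹ * (p : ℝ)⁻¹)) *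
      Real.log ((R : ℝ) / W) ≤ GN 2 R := by
  have hW0 : 0 < W := Nat.pos_of_ne_zero hW.ne_zero
  have hR0 : 0 < R := by omega
  -- GN 2 R as a double sum
  have h1 : ∑ x ∈ (W.divisors ×ˢ (Icc 1 R)).filter
        (fun x => x.1 * x.2 ∈ SQ 2 R), gg x.1 * ((Nat.totient (x.1 * x.2) : ℝ))⁻¹ ≤ GN 2 R := by
    unfold GN
    have h2 : ∀ l ∈ SQ 2 R, gg l = ∑ k ∈ l.divisors, gg k * ((Nat.totient l : ℝ))⁻¹ := by
      intro l hl
      rw [mem_SQ] at hl
      have h3 := totient_mul_gg hl.2.1 (Nat.coprime_two_right.1 hl.2.2)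
      rw [← Finset.sum_mul, ← h3]
      have : (Nat.totient l : ℝ) ≠ 0 := by
        have := Nat.totient_pos.2 (show 0 < l by omega)
        positivity
      field_simp
    rw [Finset.sum_congr rfl h2, Finset.sum_sigma']
    set F : ℕ × ℕ → (_ : ℕ) × ℕ := fun x => ⟨x.1 * x.2, x.1⟩ with hF
    have hinj : ∀ x ∈ (W.divisors ×ˢ (Icc 1 R)).filter (fun x => x.1 * x.2 ∈ SQ 2 R),
        ∀ y ∈ (W.divisors ×ˢ (Icc 1 R)).filter (fun x => x.1 * x.2 ∈ SQ 2 R),
        F x = F y → x = y := by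
      intro x hx y hy hxy
      rw [hF] at hxy
      simp only [Sigma.mk.injEq, heq_eq_eq] at hxy
      rw [mem_filter, Finset.mem_product, Nat.mem_divisors] at hx
      have hx0 : 0 < x.1 := Nat.pos_of_dvd_of_pos hx.1.1.1 hW0
      obtain ⟨h3, h4⟩ := hxy
      rw [← h4] at h3
      exact Prod.ext h4 (Nat.eq_of_mul_eq_mul_left hx0 h3)
    have h3 : ∑ x ∈ (W.divisors ×ˢ (Icc 1 R)).filter (fun x => x.1 * x.2 ∈ SQ 2 R),
        gg x.1 * ((Nat.totient (x.1 * x.2) : ℝ))⁻¹ =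
        ∑ y ∈ ((W.divisors ×ˢ (Icc 1 R)).filter (fun x => x.1 * x.2 ∈ SQ 2 R)).image F,
          gg y.2 * ((Nat.totient y.1 : ℝ))⁻¹ := by
      rw [Finset.sum_image hinj]
    rw [h3]
    apply Finset.sum_le_sum_of_subset_of_nonneg
    · intro y hy
      rw [Finset.mem_image] at hy
      obtain ⟨x, hx, rfl⟩ := hy
      rw [mem_filter] at hx
      rw [Finset.mem_sigma, Nat.mem_divisors]
      refine ⟨hx.2, Dvd.intro _ rfl, ?_⟩
      have := (mem_SQ.1 hx.2).1.1
      show x.1 * x.2 ≠ 0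
      omega
    · intro y hy _
      rw [Finset.mem_sigma, Nat.mem_divisors, mem_SQ] at hy
      have h4 : Odd y.1 := Nat.coprime_two_right.1 hy.1.2.2
      have h5 : Odd y.2 := Odd.of_dvd_nat h4 hy.2.1
      have := gg_pos h5
      positivity
  refine le_trans ?_ h1
  -- lower bound of the double sum
  have h2 : ∑ k ∈ W.divisors, gg k * ((Nat.totient k : ℝ))⁻¹ *
      (∑ e ∈ SQ (2 * k) (R / k), ((Nat.totient e : ℝ))⁻¹) ≤
      ∑ x ∈ (W.divisors ×ˢ (Icc 1 R)).filter
        (fun x => x.1 * x.2 ∈ SQ 2 R), gg x.1 * ((Nat.totient (x.1 * x.2) : ℝ))⁻¹ := by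
    rw [Finset.sum_filter, Finset.sum_product]
    apply Finset.sum_le_sum
    intro k hk
    rw [← Finset.sum_filter]
    have hkW := (Nat.mem_divisors.1 hk).1
    have hk0 : 0 < k := Nat.pos_of_dvd_of_pos hkW hW0
    have hkodd : Odd k := Odd.of_dvd_nat hWodd hkW
    have hksq : Squarefree k := hW.squarefree_of_dvd hkW
    rw [Finset.mul_sum]
    have hsub : SQ (2 * k) (R / k) ⊆ (Icc 1 R).filter (fun e => k * e ∈ SQ 2 R) := by
      intro e he
      rw [mem_SQ] at he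
      rw [mem_filter, mem_Icc, mem_SQ]
      obtain ⟨⟨he1, he2⟩, he3, he4⟩ := he
      have h5 : k * e ≤ R := by
        rw [mul_comm]
        exact (Nat.le_div_iff_mul_le hk0).1 he2
      have h6 : Nat.Coprime e 2 := Nat.Coprime.coprime_dvd_right (Dvd.intro _ rfl) he4
      have h7 : Nat.Coprime e k := Nat.Coprime.coprime_dvd_right (Dvd.intro_left _ rfl) he4
      refine ⟨⟨he1, (Nat.le_mul_of_pos_left e hk0).trans h5⟩, ⟨Nat.mul_pos hk0 he1, h5⟩, ?_, ?_⟩
      · exact (Nat.squarefree_mul h7.symm).2 ⟨hksq, he3⟩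
      · exact Nat.Coprime.mul_left (Nat.coprime_two_right.2 hkodd) h6
    have h8 : ∑ e ∈ SQ (2 * k) (R / k), gg k * ((Nat.totient k : ℝ))⁻¹ * ((Nat.totient e : ℝ))⁻¹ =
        ∑ e ∈ SQ (2 * k) (R / k), gg k * ((Nat.totient (k * e) : ℝ))⁻¹ := by
      apply Finset.sum_congr rfl
      intro e he
      rw [mem_SQ] at he
      have h7 : Nat.Coprime e k := Nat.Coprime.coprime_dvd_right (Dvd.intro_left _ rfl) he.2.2
      rw [Nat.totient_mul h7.symm]
      push_cast
      rw [mul_inv]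
      ring
    rw [h8]
    apply Finset.sum_le_sum_of_subset_of_nonneg hsub
    intro e _ _
    have := gg_pos hkodd
    positivity
  refine le_trans ?_ h2
  have hcop : ∀ k ∈ W.divisors, gg k * ((k : ℝ))⁻¹ * (1 / 2) * Real.log ((R : ℝ) / W) ≤
      gg k * ((Nat.totient k : ℝ))⁻¹ * (∑ e ∈ SQ (2 * k) (R / k), ((Nat.totient e : ℝ))⁻¹) := by
    intro k hk
    have hkW := (Nat.mem_divisors.1 hk).1
    have hk0 : 0 < k := Nat.pos_of_dvd_of_pos hkW hW0
    have hkodd : Odd k := Odd.of_dvd_nat hWodd hkW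
    have hg := gg_pos hkodd
    have h3 := phi_sum_ge (q := 2 * k) (R := R / k) (by omega)
    have h4 : Nat.totient (2 * k) = Nat.totient k := by
      rw [Nat.totient_mul (Nat.coprime_two_left.2 hkodd), Nat.totient_two, one_mul]
    rw [h4] at h3
    have hk' : (0 : ℝ) < k := by exact_mod_cast hk0
    have ht : (0 : ℝ) < Nat.totient k := by exact_mod_cast Nat.totient_pos.2 hk0
    have h5 : Real.log ((R : ℝ) / W) ≤ Real.log (((R / k : ℕ) : ℝ) + 1) := by
      have hR' : (0 : ℝ) < R := by exact_mod_cast hR0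
      have hW' : (0 : ℝ) < W := by exact_mod_cast hW0
      apply Real.log_le_log (by positivity)
      have h6 : (R : ℝ) / k < ((R / k : ℕ) : ℝ) + 1 := by
        rw [div_lt_iff₀ hk']
        have h7 : R < (R / k + 1) * k := by
          have := Nat.lt_succ_self (R / k)
          exact (Nat.div_lt_iff_lt_mul hk0).1 this
        exact_mod_cast h7
      have h8 : (R : ℝ) / W ≤ (R : ℝ) / k := by
        apply div_le_div_of_nonneg_left hR'.le hk'
        exact_mod_cast Nat.le_of_dvd hW0 hkW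
      linarith
    calc gg k * ((k : ℝ))⁻¹ * (1 / 2) * Real.log ((R : ℝ) / W)
        ≤ gg k * ((k : ℝ))⁻¹ * (1 / 2) * Real.log (((R / k : ℕ) : ℝ) + 1) := by
          apply mul_le_mul_of_nonneg_left h5
          positivity
      _ = gg k * ((Nat.totient k : ℝ))⁻¹ * ((Nat.totient k : ℝ) / ((2 * k : ℕ) : ℝ) *
            Real.log (((R / k : ℕ) : ℝ) + 1)) := by
          push_cast
          field_simp
      _ ≤ _ := by
          apply mul_le_mul_of_nonneg_left h3
          positivity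
  refine le_trans (le_of_eq ?_) (Finset.sum_le_sum hcop)
  rw [← Finset.sum_mul, ← Finset.sum_mul]
  have h9 : ∑ k ∈ W.divisors, gg k * ((k : ℝ))⁻¹ =
      ∏ p ∈ W.primeFactors, (1 + ((p : ℝ) - 2)⁻¹ * (p : ℝ)⁻¹) := by
    have hm : (gg.pmul invAF).IsMultiplicative := gg_mult.pmul invAF_mult
    have h := hm.prodPrimeFactors_one_add_of_squarefree hW
    have h10 : ∑ k ∈ W.divisors, gg k * ((k : ℝ))⁻¹ = ∑ k ∈ W.divisors, (gg.pmul invAF) k := by
      apply Finset.sum_congr rfl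
      intro k _
      rw [ArithmeticFunction.pmul_apply, invAF_apply]
    rw [h10, ← h]
    apply Finset.prod_congr rfl
    intro p hp
    rw [ArithmeticFunction.pmul_apply, gg_prime (Nat.mem_primeFactors.1 hp).1, invAF_apply]
  rw [h9]
  ring

end Pool.Agent.W23.UB
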