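import Pool.Agent.W23.UBb

set_option autoImplicit false

/-!
The twin prime constant and the lower bound for the Selberg sum; factorable moduli.
-/

open Finset Nat ArithmeticFunction

namespace Pool.Agent.W23.UB

/-- `- 1 / (p-1)²`, or zero for `p = 2` -/
noncomputable def c2f (p : Nat.Primes) : ℝ := if (p : ℕ) = 2 then 0 else -(1 / ((p : ℝ) - 1) ^ 2)

/-- the twin prime constant -/
noncomputable def C2 : ℝ := ∏' p : Nat.Primes, if (p : ℕ) = 2 then 1 else 1 - 1 / ((p : ℝ) - 1) ^ 2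

theorem C2_eq : C2 = ∏' p : Nat.Primes, (1 + c2f p) := by
  unfold C2 c2f
  apply tprod_congr
  intro p
  split_ifs with h
  · simp
  · ring

theorem c2f_summable : Summable (fun p : Nat.Primes => ‖c2f p‖) := by
  have h1 : Summable (fun n : ℕ => 4 * (1 / (n : ℝ) ^ 2)) :=
    (Real.summable_one_div_nat_pow.2 (by norm_num)).mul_left 4
  have h2 : Summable (fun p : Nat.Primes => 4 * (1 / ((p : ℕ) : ℝ) ^ 2)) :=
    h1.comp_injective Nat.Primes.coe_nat_injective
  refine Summable.of_nonneg_of_le (fun _ => norm_nonneg _) ?_ h2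
  intro p
  unfold c2f
  have h3 : (2 : ℝ) ≤ p := by exact_mod_cast p.2.two_le
  split_ifs with h
  · rw [norm_zero]; positivity
  · rw [norm_neg, Real.norm_eq_abs, abs_of_nonneg (by positivity)]
    have h4 : (0 : ℝ) < ((p : ℕ) : ℝ) - 1 := by linarith
    rw [mul_one_div, div_le_div_iff₀ (by positivity) (by positivity)]
    nlinarith

theorem one_add_pos (p : Nat.Primes) : 0 < 1 + c2f p := by
  unfold c2f
  split_ifs with h
  · norm_num
  · have h3 : 3 ≤ (p : ℕ) := by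
      have := p.2.two_le
      omega
    have h4 : (3 : ℝ) ≤ p := by exact_mod_cast h3
    have h5 : (1 : ℝ) < ((p : ℝ) - 1) ^ 2 := by nlinarith
    have h6 : 1 / ((p : ℝ) - 1) ^ 2 < 1 := by
      rw [div_lt_one (by linarith)]
      exact h5
    linarith

theorem C2_hasProd : HasProd (fun p : Nat.Primes => 1 + c2f p) C2 := by
  rw [C2_eq]
  exact (multipliable_one_add_of_summable c2f_summable).hasProd

theorem C2_pos : 0 < C2 := by
  have h1 : C2 ≠ 0 := by
    rw [C2_eq]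
    exact tprod_one_add_ne_zero_of_summable (fun p => (one_add_pos p).ne') c2f_summable
  have h2 : 0 ≤ C2 := by
    have := C2_hasProd
    exact ge_of_tendsto' this (fun s => Finset.prod_nonneg fun p _ => (one_add_pos p).le)
  exact lt_of_le_of_ne h2 h1.symm

theorem exW (ε : ℝ) (hε : 0 < ε) : ∃ W : ℕ, Squarefree W ∧ Odd W ∧
    C2⁻¹ - ε ≤ ∏ p ∈ W.primeFactors, (1 + ((p : ℝ) - 2)⁻¹ * (p : ℝ)⁻¹) := by
  have h1 := C2_hasProd.inv₀ C2_pos.ne'
  have h2 : ∀ᶠ s : Finset Nat.Primes in Filter.atTop, C2⁻¹ - ε ≤ ∏ p ∈ s, (1 + c2f p)⁻¹ :=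
    h1.eventually_const_le (by linarith)
  obtain ⟨s, hs⟩ := h2.exists
  set T : Finset ℕ := (s.image (fun p : Nat.Primes => (p : ℕ))).filter (fun p => p ≠ 2) with hT
  have hTp : ∀ p ∈ T, p.Prime ∧ p ≠ 2 := by
    intro p hp
    rw [hT, mem_filter, Finset.mem_image] at hp
    obtain ⟨⟨q, _, rfl⟩, h⟩ := hp
    exact ⟨q.2, h⟩
  have hsq : Squarefree (∏ p ∈ T, p) := by
    refine Finset.squarefree_prod_of_pairwise_isCoprime (fun p hp r hr hpr ↦ ?_) fun p hp ↦ ?_
    · simp only [← coprime_iff_isRelPrime]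
      exact (coprime_primes (hTp p hp).1 (hTp r hr).1).mpr hpr
    · exact (hTp p hp).1.squarefree
  have hpf : (∏ p ∈ T, p).primeFactors = T := Nat.primeFactors_prod (fun p hp => (hTp p hp).1)
  refine ⟨∏ p ∈ T, p, hsq, ?_, ?_⟩
  · rw [← Nat.not_even_iff_odd, even_iff_two_dvd]
    intro h
    have h3 : 2 ∈ (∏ p ∈ T, p).primeFactors :=
      Nat.mem_primeFactors.2 ⟨Nat.prime_two, h, hsq.ne_zero⟩
    rw [hpf] at h3
    exact (hTp 2 h3).2 rfl
  · rw [hpf]
    refine hs.trans (le_of_eq ?_)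
    have h3 : ∏ p ∈ s, (1 + c2f p)⁻¹ = ∏ p ∈ s.filter (fun p : Nat.Primes => (p : ℕ) ≠ 2), (1 + c2f p)⁻¹ := by
      symm
      apply Finset.prod_filter_of_ne
      intro p _ h h2
      apply h
      unfold c2f
      rw [if_pos h2]
      simp
    have h4 : T = (s.filter (fun p : Nat.Primes => (p : ℕ) ≠ 2)).image (fun p : Nat.Primes => (p : ℕ)) := by
      ext p
      rw [hT, mem_filter, Finset.mem_image, Finset.mem_image]
      constructor
      · rintro ⟨⟨q, h5, rfl⟩, h6⟩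
        exact ⟨q, mem_filter.2 ⟨h5, h6⟩, rfl⟩
      · rintro ⟨q, h5, rfl⟩
        rw [mem_filter] at h5
        exact ⟨⟨q, h5.1, rfl⟩, h5.2⟩
    rw [h3, h4, Finset.prod_image (g := fun p : Nat.Primes => (p : ℕ))
      (fun a _ b _ h => Nat.Primes.coe_nat_injective h)]
    apply Finset.prod_congr rfl
    intro p hp
    rw [mem_filter] at hp
    have h5 : 3 ≤ (p : ℕ) := by
      have := p.2.two_le
      omega
    have h6 : (3 : ℝ) ≤ p := by exact_mod_cast h5
    have h7 : (p : ℝ) - 1 ≠ 0 := by linarith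
    have h8 : (p : ℝ) - 2 ≠ 0 := by linarith
    have h9 : (p : ℝ) ≠ 0 := by linarith
    unfold c2f
    rw [if_neg hp.2, inv_eq_one_div, div_eq_iff (by
      have := (one_add_pos p).ne'
      unfold c2f at this
      rwa [if_neg hp.2] at this)]
    field_simp
    ring

/-- lower bound for the Selberg sum -/
theorem GN_lower (ε : ℝ) (hε : 0 < ε) : ∃ W : ℕ, 1 ≤ W ∧ ∀ N R : ℕ, Even N → N ≠ 0 → W ≤ R →
    (1 / 2) * (C2⁻¹ - ε) * Real.log ((R : ℝ) / W) ≤
      (∏ p ∈ N.primeFactors.filter (fun p => 2 < p), (1 + ((p : ℝ) - 2)⁻¹)) * GN N R := by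
  obtain ⟨W, h1, h2, h3⟩ := exW ε hε
  have hW1 : 1 ≤ W := Nat.pos_of_ne_zero h1.ne_zero
  refine ⟨W, hW1, ?_⟩
  intro N R hN hN0 hR
  refine le_trans ?_ ((M2 h1 h2 hR).trans (M1 hN hN0))
  have hW' : (1 : ℝ) ≤ W := by exact_mod_cast hW1
  have h4 : 0 ≤ Real.log ((R : ℝ) / W) := by
    apply Real.log_nonneg
    rw [le_div_iff₀ (by linarith), one_mul]
    exact_mod_cast hR
  apply mul_le_mul_of_nonneg_right _ h4
  linarith

/-- factorable moduli -/
theorem exists_factor {L U z : ℝ} {d : ℕ} (hd : 0 < d) (hLd : L ≤ d)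
    (hp : ∀ p : ℕ, p.Prime → p ∣ d → (p : ℝ) ≤ z) (hzU : z ≤ U) (hU1 : 1 ≤ U) (hL : 0 ≤ L)
    (hLU : L * L ≤ U) : ∃ s : ℕ, s ∣ d ∧ L ≤ s ∧ (s : ℝ) ≤ U := by
  classical
  have hne : ∃ s : ℕ, s ∣ d ∧ L ≤ s := ⟨d, dvd_rfl, hLd⟩
  set s := Nat.find hne with hs
  obtain ⟨h1, h2⟩ := Nat.find_spec hne
  rw [← hs] at h1 h2
  refine ⟨s, h1, h2, ?_⟩
  rcases Nat.eq_or_lt_of_le (Nat.pos_of_dvd_of_pos h1 hd) with h3 | h3
  · rw [← h3]
    push_cast
    simpa using hU1
  · obtain ⟨q, hq, hqs⟩ := Nat.exists_prime_and_dvd (show s ≠ 1 by omega)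
    have hs0 : 0 < s := by omega
    have h4 : s / q < s := Nat.div_lt_self hs0 hq.one_lt
    have h5 : ((s / q : ℕ) : ℝ) < L := by
      by_contra h
      have := Nat.find_min hne h4
      exact this ⟨(Nat.div_dvd_of_dvd hqs).trans h1, not_lt.1 h⟩
    have hsq : (s : ℝ) = q * ((s / q : ℕ) : ℝ) := by
      have := Nat.mul_div_cancel' hqs
      exact_mod_cast this.symm
    rcases le_or_gt L (q : ℝ) with h6 | h6
    · have h7 : ¬ q < s := fun h => Nat.find_min hne h ⟨hqs.trans h1, h6⟩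
      have h8 : q = s := le_antisymm (Nat.le_of_dvd hs0 hqs) (not_lt.1 h7)
      rw [← h8]
      exact (hp q hq (hqs.trans h1)).trans hzU
    · calc (s : ℝ) = q * ((s / q : ℕ) : ℝ) := hsq
        _ ≤ L * L := by gcongr
        _ ≤ U := hLU

end Pool.Agent.W23.UB
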