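import Pool.Agent.W23.UBc
import Pool.Agent.H442R2.FX.AsmY

set_option autoImplicit false

/-!
The sieve for one even number `n`.
-/

open Finset Nat ArithmeticFunction BoundingSieve

namespace Pool.Agent.W23.UB

open Pool.Agent.Helper923.PPS
open Pool.Agent.H300R2.WEH (piR err errMax)

/-- `li` -/
noncomputable def li (y : ℝ) : ℝ := ∫ t in (2 : ℝ)..y, 1 / Real.log t

theorem li_abs_le {y : ℝ} (hy : 2 ≤ y) : |li y| ≤ 2 * (y - 2) := by
  unfold li
  have h := intervalIntegral.norm_integral_le_of_norm_le_const (a := (2 : ℝ)) (b := y)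
    (f := fun t => 1 / Real.log t) (C := 2) (by
      intro t ht
      rw [Set.uIoc_of_le hy] at ht
      have h2 : 2 ≤ t := ht.1.le
      have h3 : Real.log 2 ≤ Real.log t := Real.log_le_log (by norm_num) h2
      have h4 := Real.log_two_gt_d9
      have h5 : 0 < Real.log t := by linarith
      rw [Real.norm_eq_abs, abs_of_nonneg (by positivity), div_le_iff₀ (by linarith)]
      linarith)
  rw [Real.norm_eq_abs, abs_of_nonneg (by linarith : (0 : ℝ) ≤ y - 2)] at h
  exact h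

theorem err_le_errMax {N d l : ℕ} {y : ℝ} (hy : 2 ≤ y) (hyN : y ≤ N) :
    err y d l ≤ errMax N d l := by
  unfold errMax
  have hb : BddAbove (Set.range fun y : Set.Icc (2 : ℝ) N => err (y : ℝ) d l) := by
    refine ⟨3 * N, ?_⟩
    rintro _ ⟨⟨z, hz1, hz2⟩, rfl⟩
    simp only
    unfold err
    have h1 : (piR z d l : ℝ) ≤ N := by
      unfold piR
      have h2 := Finset.card_filter_le (Icc 1 ⌊z⌋₊) (fun p => p.Prime ∧ p ≡ l [MOD d])
      rw [Nat.card_Icc] at h2
      have h3 : ⌊z⌋₊ ≤ N := by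
        have := Nat.floor_mono hz2
        simpa using this
      have h4 : ((Icc 1 ⌊z⌋₊).filter (fun p => p.Prime ∧ p ≡ l [MOD d])).card ≤ N := by omega
      exact_mod_cast h4
    have h2 : |(∫ t in (2 : ℝ)..z, 1 / Real.log t) / (Nat.totient d : ℝ)| ≤ 2 * N := by
      rw [abs_div]
      have h3 : |∫ t in (2 : ℝ)..z, 1 / Real.log t| ≤ 2 * (z - 2) := li_abs_le hz1
      rcases Nat.eq_zero_or_pos (Nat.totient d) with h4 | h4
      · rw [h4]; simp
      · have h5 : (1 : ℝ) ≤ |(Nat.totient d : ℝ)| := by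
          rw [abs_of_nonneg (Nat.cast_nonneg _)]
          exact_mod_cast h4
        refine (div_le_self (abs_nonneg _) h5).trans ?_
        linarith
    calc |(piR z d l : ℝ) - (∫ t in (2 : ℝ)..z, 1 / Real.log t) / (Nat.totient d : ℝ)|
        ≤ |(piR z d l : ℝ)| + |(∫ t in (2 : ℝ)..z, 1 / Real.log t) / (Nat.totient d : ℝ)| :=
          abs_sub _ _
      _ ≤ N + 2 * N := by
          rw [abs_of_nonneg (Nat.cast_nonneg _)]
          exact add_le_add h1 h2
      _ = 3 * N := by ring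
  exact le_ciSup hb (⟨y, hy, hyN⟩ : Set.Icc (2 : ℝ) N)

/-- `1/φ` as an arithmetic function -/
noncomputable def phiInv : ArithmeticFunction ℝ where
  toFun n := ((Nat.totient n : ℕ) : ℝ)⁻¹
  map_zero' := by simp

theorem phiInv_apply (n : ℕ) : phiInv n = ((Nat.totient n : ℕ) : ℝ)⁻¹ := rfl

theorem phiInv_mult : phiInv.IsMultiplicative := by
  refine ⟨by simp [phiInv_apply], ?_⟩
  intro m n h
  rw [phiInv_apply, phiInv_apply, phiInv_apply, Nat.totient_mul h]
  push_cast
  rw [mul_inv]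

/-- the primes `y₁ < p ≤ y₂` -/
noncomputable def PW (y₁ y₂ : ℝ) : Finset ℕ := by
  classical
  exact (Icc 1 ⌊y₂⌋₊).filter (fun p : ℕ => p.Prime ∧ y₁ < p)

theorem mem_PW {y₁ y₂ : ℝ} {p : ℕ} : p ∈ PW y₁ y₂ ↔ p.Prime ∧ y₁ < (p : ℝ) ∧ (p : ℝ) ≤ y₂ := by
  classical
  unfold PW
  rw [mem_filter, mem_Icc]
  constructor
  · rintro ⟨⟨h1, h2⟩, h3, h4⟩
    exact ⟨h3, h4, (Nat.le_floor_iff' (by omega)).1 h2⟩
  · rintro ⟨h1, h2, h3⟩
    exact ⟨⟨h1.one_lt.le, Nat.le_floor h3⟩, h1, h2⟩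

/-- the sieve problem for `n - p` -/
noncomputable def gs (n R : ℕ) (hn : Even n) (y₁ y₂ : ℝ) : BoundingSieve where
  support := (PW y₁ y₂).image (fun p => n - p)
  prodPrimes := PP n R
  prodPrimes_squarefree := PP_squarefree n R
  weights := fun _ => 1
  weights_nonneg := fun _ => zero_le_one
  totalMass := li y₂ - li y₁
  nu := phiInv
  nu_mult := phiInv_mult
  nu_pos_of_prime := by
    intro p hp _
    rw [phiInv_apply, Nat.totient_prime hp]
    have : 0 < p - 1 := by have := hp.two_le; omega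
    have : (0 : ℝ) < ((p - 1 : ℕ) : ℝ) := by exact_mod_cast this
    positivity
  nu_lt_one_of_prime := by
    intro p hp hpd
    rw [phiInv_apply, Nat.totient_prime hp]
    have h1 := ((prime_dvd_PP hp).1 hpd).2
    have h2 : p ≠ 2 := by
      rintro rfl
      exact h1 hn.two_dvd
    have h3 : 2 ≤ p - 1 := by have := hp.two_le; omega
    have h4 : (2 : ℝ) ≤ ((p - 1 : ℕ) : ℝ) := by exact_mod_cast h3
    exact inv_lt_one_of_one_lt₀ (by linarith)

/-- the number of `p`, `y₁ < p ≤ y₂`, such that `p` and `n - p` are primes -/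
noncomputable def rr (n : ℕ) (y₁ y₂ : ℝ) : ℕ := ((PW y₁ y₂).filter (fun p => (n - p).Prime)).card

theorem inj_sub {n : ℕ} {y₁ y₂ : ℝ} (hy : y₂ ≤ n) :
    ∀ x ∈ PW y₁ y₂, ∀ y ∈ PW y₁ y₂, (fun p => n - p) x = (fun p => n - p) y → x = y := by
  intro x hx y hy' h
  rw [mem_PW] at hx hy'
  have h1 : x ≤ n := by
    have := hx.2.2.trans hy
    exact_mod_cast this
  have h2 : y ≤ n := by
    have := hy'.2.2.trans hy
    exact_mod_cast this
  simp only at h
  omega

theorem rr_le_sifted {n R : ℕ} (hn : Even n) {y₁ y₂ : ℝ} (hy : y₂ ≤ n) :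
    (rr n y₁ y₂ : ℝ) ≤ (gs n R hn y₁ y₂).siftedSum + (R + 1) := by
  classical
  have e : (gs n R hn y₁ y₂).siftedSum =
      (((PW y₁ y₂).filter (fun p => Nat.Coprime (PP n R) (n - p))).card : ℝ) := by
    unfold BoundingSieve.siftedSum
    have h0 : (gs n R hn y₁ y₂).support = (PW y₁ y₂).image (fun p => n - p) := rfl
    rw [h0, Finset.sum_image (inj_sub hy), Finset.card_filter]
    push_cast
    apply Finset.sum_congr rfl
    intro p _
    rfl
  rw [e]
  have h1 : (PW y₁ y₂).filter (fun p => (n - p).Prime) ⊆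
      (PW y₁ y₂).filter (fun p => Nat.Coprime (PP n R) (n - p)) ∪
      (PW y₁ y₂).filter (fun p => n - p ≤ R) := by
    intro p hp
    rw [mem_filter] at hp
    rw [mem_union, mem_filter, mem_filter]
    by_cases h : n - p ≤ R
    · right; exact ⟨hp.1, h⟩
    · left
      refine ⟨hp.1, ?_⟩
      rw [Nat.coprime_comm, hp.2.coprime_iff_not_dvd, prime_dvd_PP hp.2]
      tauto
  have h2 : ((PW y₁ y₂).filter (fun p => n - p ≤ R)).card ≤ R + 1 := by
    have : ((PW y₁ y₂).filter (fun p => n - p ≤ R)).card ≤ (Finset.range (R + 1)).card := by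
      apply Finset.card_le_card_of_injOn (fun p => n - p)
      · intro p hp
        rw [Finset.mem_coe, mem_filter] at hp
        rw [Finset.mem_coe, Finset.mem_range]
        simp only
        omega
      · intro x hx y hy' hxy
        rw [Finset.mem_coe, mem_filter] at hx hy'
        exact inj_sub hy x hx.1 y hy'.1 hxy
    simpa using this
  have h3 := (Finset.card_le_card h1).trans (Finset.card_union_le _ _)
  unfold rr
  have h4 : ((PW y₁ y₂).filter (fun p => (n - p).Prime)).card ≤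
      ((PW y₁ y₂).filter (fun p => Nat.Coprime (PP n R) (n - p))).card + (R + 1) := by omega
  exact_mod_cast h4

theorem GN_le_selS {n R : ℕ} (hn : Even n) {y₁ y₂ : ℝ} :
    GN n R ≤ selS (gs n R hn y₁ y₂) (R : ℝ) := by
  unfold selS GN
  have h1 : ∀ l ∈ SQ n R, gg l = (gs n R hn y₁ y₂).selbergTerms l := by
    intro l hl
    rw [mem_SQ] at hl
    have hodd : Odd l := odd_of_coprime hn hl.2.2
    rw [BoundingSieve.selbergTerms_apply]
    change gg l = ((Nat.totient l : ℕ) : ℝ)⁻¹ * ∏ p ∈ l.primeFactors,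
      (1 - ((Nat.totient p : ℕ) : ℝ)⁻¹)⁻¹
    have h2 : (Nat.totient l : ℝ) = ∏ p ∈ l.primeFactors, ((p : ℝ) - 1) := by
      have h3 := congrArg (fun z : ℚ => (z : ℝ)) (Nat.totient_eq_mul_prod_factors l)
      push_cast at h3
      rw [h3]
      have h4 : (l : ℝ) = ∏ p ∈ l.primeFactors, (p : ℝ) := by
        have := Nat.prod_primeFactors_of_squarefree hl.2.1
        rw [← Nat.cast_prod, this]
      nth_rewrite 1 [h4]
      rw [← Finset.prod_mul_distrib]
      apply Finset.prod_congr rfl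
      intro p hp
      have : (p : ℝ) ≠ 0 := by
        have := (Nat.mem_primeFactors.1 hp).1.pos
        positivity
      field_simp
    rw [h2, ← Finset.prod_inv_distrib, ← Finset.prod_mul_distrib, gg_apply (by omega)]
    apply Finset.prod_congr rfl
    intro p hp
    have h5 := odd_prime_ge hodd hp
    have h6 : (3 : ℝ) ≤ p := by exact_mod_cast h5
    rw [Nat.totient_prime (Nat.mem_primeFactors.1 hp).1, Nat.cast_sub (by omega), Nat.cast_one]
    have h7 : (p : ℝ) - 1 ≠ 0 := by linarith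
    have h8 : (p : ℝ) - 2 ≠ 0 := by linarith
    have h9 : 1 - ((p : ℝ) - 1)⁻¹ = ((p : ℝ) - 2) / (p - 1) := by
      field_simp
      ring
    rw [h9]
    field_simp
  rw [Finset.sum_congr rfl h1]
  apply Finset.sum_le_sum_of_subset_of_nonneg
  · intro l hl
    rw [mem_SQ] at hl
    rw [Finset.mem_filter, Nat.mem_divisors]
    exact ⟨⟨dvd_PP_of_squarefree hl.2.1 hl.1.2 hl.2.2, (PP_squarefree n R).ne_zero⟩,
      by exact_mod_cast hl.1.2⟩
  · intro l hl _
    rw [Finset.mem_filter, Nat.mem_divisors] at hl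
    exact (selbergTerms_pos hl.1.1).le

theorem gs_rem {n R d X : ℕ} (hn : Even n) {y₁ y₂ : ℝ} (h1 : 2 ≤ y₁) (h12 : y₁ ≤ y₂) (hy : y₂ ≤ n)
    (hnX : n ≤ X) : |(gs n R hn y₁ y₂).rem d| ≤ 2 * errMax X d n := by
  classical
  have hyX : y₂ ≤ X := hy.trans (by exact_mod_cast hnX)
  have e1 : (gs n R hn y₁ y₂).multSum d =
      (((PW y₁ y₂).filter (fun p => d ∣ n - p)).card : ℝ) := by
    unfold BoundingSieve.multSum
    have h0 : (gs n R hn y₁ y₂).support = (PW y₁ y₂).image (fun p => n - p) := rfl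
    rw [h0, Finset.sum_image (inj_sub hy), Finset.card_filter]
    push_cast
    apply Finset.sum_congr rfl
    intro p _
    rfl
  have e2 : (((PW y₁ y₂).filter (fun p => d ∣ n - p)).card : ℝ) =
      (piR y₂ d n : ℝ) - (piR y₁ d n : ℝ) := by
    have h2 : (PW y₁ y₂).filter (fun p => d ∣ n - p) =
        ((Icc 1 ⌊y₂⌋₊).filter (fun p => p.Prime ∧ p ≡ n [MOD d])) \
        ((Icc 1 ⌊y₁⌋₊).filter (fun p => p.Prime ∧ p ≡ n [MOD d])) := by
      ext p
      rw [mem_filter, mem_PW, Finset.mem_sdiff, mem_filter, mem_filter, mem_Icc, mem_Icc]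
      have hmod : ∀ hp : p ≤ n, (d ∣ n - p ↔ p ≡ n [MOD d]) := fun hp =>
        (Nat.modEq_iff_dvd' hp).symm
      constructor
      · rintro ⟨⟨h3, h4, h5⟩, h6⟩
        have hpn : p ≤ n := by
          have := h5.trans hy
          exact_mod_cast this
        refine ⟨⟨⟨h3.one_lt.le, Nat.le_floor h5⟩, h3, (hmod hpn).1 h6⟩, ?_⟩
        rintro ⟨⟨_, h7⟩, _⟩
        have := (Nat.le_floor_iff (by linarith)).1 h7
        linarith
      · rintro ⟨⟨⟨h3, h4⟩, h5, h6⟩, h7⟩
        have h8 : (p : ℝ) ≤ y₂ := (Nat.le_floor_iff' (by omega)).1 h4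
        have hpn : p ≤ n := by
          have := h8.trans hy
          exact_mod_cast this
        refine ⟨⟨h5, ?_, h8⟩, (hmod hpn).2 h6⟩
        by_contra h9
        exact h7 ⟨⟨h3, Nat.le_floor (not_lt.1 h9)⟩, h5, h6⟩
    have hsub : ((Icc 1 ⌊y₁⌋₊).filter (fun p => p.Prime ∧ p ≡ n [MOD d])) ⊆
        ((Icc 1 ⌊y₂⌋₊).filter (fun p => p.Prime ∧ p ≡ n [MOD d])) := by
      intro p hp
      rw [mem_filter, mem_Icc] at hp ⊢
      exact ⟨⟨hp.1.1, hp.1.2.trans (Nat.floor_mono h12)⟩, hp.2⟩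
    rw [h2, Finset.card_sdiff_of_subset hsub, Nat.cast_sub (Finset.card_le_card hsub)]
    rfl
  have e3 : (gs n R hn y₁ y₂).rem d =
      ((piR y₂ d n : ℝ) - li y₂ / (Nat.totient d : ℝ)) -
        ((piR y₁ d n : ℝ) - li y₁ / (Nat.totient d : ℝ)) := by
    unfold BoundingSieve.rem
    rw [e1, e2]
    change _ - ((Nat.totient d : ℕ) : ℝ)⁻¹ * (li y₂ - li y₁) = _
    rw [div_eq_mul_inv, div_eq_mul_inv]
    ring
  rw [e3]
  refine (abs_sub _ _).trans ?_
  have h2 : |(piR y₂ d n : ℝ) - li y₂ / (Nat.totient d : ℝ)| ≤ errMax X d n :=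
    err_le_errMax (by linarith) hyX
  have h3 : |(piR y₁ d n : ℝ) - li y₁ / (Nat.totient d : ℝ)| ≤ errMax X d n :=
    err_le_errMax h1 (by linarith)
  linarith

/-- the moduli: squarefree `d ≤ X^θ` with all prime factors at most `X^(θ/2)` -/
noncomputable def SS (θ : ℝ) (X : ℕ) : Finset ℕ := by
  classical
  exact (Icc 1 ⌊(X : ℝ) ^ θ⌋₊).filter (fun d : ℕ => Squarefree d ∧
    ∀ p : ℕ, p.Prime → p ∣ d → (p : ℝ) ≤ (X : ℝ) ^ (θ / 2))

theorem mem_SS {θ : ℝ} {X d : ℕ} : d ∈ SS θ X ↔ (1 ≤ d ∧ d ≤ ⌊(X : ℝ) ^ θ⌋₊) ∧ Squarefree d ∧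
    ∀ p : ℕ, p.Prime → p ∣ d → (p : ℝ) ≤ (X : ℝ) ^ (θ / 2) := by
  classical
  unfold SS
  rw [mem_filter, mem_Icc]

/-- level of distribution for these moduli, every `θ < 8/15` -/
theorem level (θ : ℝ) (h1 : 1 / 2 ≤ θ) (h2 : θ < 8 / 15) (κ : ℝ) (hκ : 1 ≤ κ) (U : ℕ) :
    ∃ (B : ℕ) (C : ℝ), 0 < C ∧ ∀ N : ℕ, 3 ≤ N →
    (((Icc 1 N).filter (fun a : ℕ => (N : ℝ) / Real.log N ^ U <
      ∑ d ∈ (SS θ N).filter (fun d => Nat.Coprime a d),
        κ ^ d.primeFactors.card * errMax N d a)).card : ℝ) ≤ C * Real.log N ^ B := by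
  have hS1 : ∀ N, 3 ≤ N → SS θ N ⊆ Icc 1 ⌊(N : ℝ) ^ θ⌋₊ := by
    intro N _ d hd
    rw [mem_SS] at hd
    exact mem_Icc.2 hd.1
  set δ : ℝ := (8 / 15 - θ) / 4 with hδ
  have hδ0 : 0 < δ := by rw [hδ]; linarith
  have hfin := Pool.Agent.H442R2.FX.finalS Pool.Agent.H442R2.FX.CF_thm θ δ h1 (by linarith) hδ0
    (SS θ) hS1 (by
      intro N hN d hd hlt
      rw [mem_SS] at hd
      have hN1 : (1 : ℝ) ≤ N := by exact_mod_cast (by omega : 1 ≤ N)
      have hN0 : (0 : ℝ) < N := by linarith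
      refine ⟨hd.2.1, ?_⟩
      apply exists_factor (z := (N : ℝ) ^ (θ / 2)) (by omega) _ hd.2.2
      · apply Real.rpow_le_rpow_of_exponent_le hN1
        rw [hδ]; linarith
      · apply Real.one_le_rpow hN1
        rw [hδ]; linarith
      · positivity
      · rw [← Real.rpow_add hN0]
        apply Real.rpow_le_rpow_of_exponent_le hN1
        rw [hδ]; linarith
      · have h3 : (N : ℝ) ^ (49 / 100 : ℝ) < d := Nat.lt_of_floor_lt hlt
        refine le_trans ?_ h3.le
        apply Real.rpow_le_rpow_of_exponent_le hN1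
        rw [hδ]; linarith)
  exact Pool.Agent.H442R2.FX.weightedS θ (by linarith) (SS θ) hS1 hfin κ hκ U

/-- the sieve bound for one `n` -/
theorem one_n {θ : ℝ} {n X R : ℕ} (hn : Even n) {y₁ y₂ T : ℝ} (h1 : 2 ≤ y₁)
    (h12 : y₁ ≤ y₂) (hy : y₂ ≤ n) (hnX : n ≤ X) (hR : 1 ≤ R) (hRX : (R : ℝ) ≤ (X : ℝ) ^ (θ / 2))
    (hX : 1 ≤ X)
    (hT : ∑ d ∈ (SS θ X).filter (fun d => Nat.Coprime n d),
        (3 : ℝ) ^ d.primeFactors.card * errMax X d n ≤ T) :
    (rr n y₁ y₂ : ℝ) ≤ (li y₂ - li y₁) / selS (gs n R hn y₁ y₂) (R : ℝ) + 2 * T + (R + 1) := by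
  have hR1 : (1 : ℝ) ≤ R := by exact_mod_cast hR
  have hX1 : (1 : ℝ) ≤ X := by exact_mod_cast hX
  have hs := selberg (gs n R hn y₁ y₂) (R : ℝ) hR1
  have h2 := rr_le_sifted (R := R) hn hy (y₁ := y₁)
  have h3 : ∑ d ∈ (divisors (gs n R hn y₁ y₂).prodPrimes).filter (fun d : ℕ => (d : ℝ) ≤ (R : ℝ) ^ 2),
        (3 : ℝ) ^ d.primeFactors.card * |(gs n R hn y₁ y₂).rem d| ≤ 2 * T := by
    calc _ ≤ ∑ d ∈ (divisors (gs n R hn y₁ y₂).prodPrimes).filter
          (fun d : ℕ => (d : ℝ) ≤ (R : ℝ) ^ 2),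
          (3 : ℝ) ^ d.primeFactors.card * (2 * errMax X d n) := by
          apply Finset.sum_le_sum
          intro d _
          exact mul_le_mul_of_nonneg_left (gs_rem hn h1 h12 hy hnX) (by positivity)
      _ ≤ ∑ d ∈ (SS θ X).filter (fun d => Nat.Coprime n d),
          (3 : ℝ) ^ d.primeFactors.card * (2 * errMax X d n) := by
          apply Finset.sum_le_sum_of_subset_of_nonneg
          · intro d hd
            rw [mem_filter, Nat.mem_divisors] at hd
            have hdP : d ∣ PP n R := hd.1.1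
            have hd0 : 0 < d := Nat.pos_of_ne_zero
              (ne_zero_of_dvd_ne_zero (PP_squarefree n R).ne_zero hdP)
            rw [mem_filter, mem_SS]
            refine ⟨⟨⟨hd0, ?_⟩, (PP_squarefree n R).squarefree_of_dvd hdP, ?_⟩,
              (coprime_of_dvd_PP hdP).symm⟩
            · apply Nat.le_floor
              refine hd.2.trans ?_
              calc (R : ℝ) ^ 2 ≤ ((X : ℝ) ^ (θ / 2)) ^ 2 := by gcongr
                _ = (X : ℝ) ^ θ := by
                    rw [← Real.rpow_natCast, ← Real.rpow_mul (by linarith)]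
                    congr 1
                    push_cast
                    ring
            · intro p hp hpd
              have := ((prime_dvd_PP hp).1 (hpd.trans hdP)).1
              have h5 : (p : ℝ) ≤ R := by exact_mod_cast this
              linarith
          · intro d _ _
            have := Pool.Agent.H300R2.WEH.errMax_nonneg X d n
            positivity
      _ = 2 * ∑ d ∈ (SS θ X).filter (fun d => Nat.Coprime n d),
          (3 : ℝ) ^ d.primeFactors.card * errMax X d n := by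
          rw [Finset.mul_sum]
          apply Finset.sum_congr rfl
          intro d _
          ring
      _ ≤ 2 * T := by linarith
  have h4 : (gs n R hn y₁ y₂).totalMass = li y₂ - li y₁ := rfl
  rw [h4] at hs
  linarith

end Pool.Agent.W23.UB
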