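import Pool.Agent.W23.UBd

set_option autoImplicit false

/-!
The upper bound for the number of Goldbach representations: assembly.
-/

open Finset Filter Topology

namespace Pool.Agent.W23.UB

open Pool.Agent.H300R2.WEH (errMax)
open Pool.Agent.Helper923.PPS (selS)

/-- the singular series -/
noncomputable def sing (n : ℕ) : ℝ :=
  2 * C2 * ∏ p ∈ n.primeFactors.filter (fun p => 2 < p), (((p : ℝ) - 1) / ((p : ℝ) - 2))

theorem prod_eq (n : ℕ) : ∏ p ∈ n.primeFactors.filter (fun p => 2 < p), (((p : ℝ) - 1) / ((p : ℝ) - 2)) =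
    ∏ p ∈ n.primeFactors.filter (fun p => 2 < p), (1 + ((p : ℝ) - 2)⁻¹) := by
  apply Finset.prod_congr rfl
  intro p hp
  have h1 : 3 ≤ p := (mem_filter.1 hp).2
  have h2 : (3 : ℝ) ≤ p := by exact_mod_cast h1
  have h3 : (p : ℝ) - 2 ≠ 0 := by linarith
  field_simp
  ring

theorem one_le_prod (n : ℕ) :
    1 ≤ ∏ p ∈ n.primeFactors.filter (fun p => 2 < p), (1 + ((p : ℝ) - 2)⁻¹) := by
  have h0 : (∏ _p ∈ n.primeFactors.filter (fun p => 2 < p), (1 : ℝ)) ≤
      ∏ p ∈ n.primeFactors.filter (fun p => 2 < p), (1 + ((p : ℝ) - 2)⁻¹) := by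
    apply Finset.prod_le_prod (fun _ _ => zero_le_one)
    intro p hp
    have h1 : 3 ≤ p := (mem_filter.1 hp).2
    have h2 : (3 : ℝ) ≤ p := by exact_mod_cast h1
    have h3 : 0 < (p : ℝ) - 2 := by linarith
    have : 0 < ((p : ℝ) - 2)⁻¹ := by positivity
    linarith
  rwa [Finset.prod_const_one] at h0

theorem li_diff_ge {y₁ y₂ : ℝ} (h1 : 2 ≤ y₁) (h2 : y₁ ≤ y₂) :
    (y₂ - y₁) / Real.log y₂ ≤ li y₂ - li y₁ := by
  have hint : ∀ a b : ℝ, 2 ≤ a → 2 ≤ b → IntervalIntegrable (fun t => 1 / Real.log t)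
      MeasureTheory.volume a b := by
    intro a b ha hb
    apply ContinuousOn.intervalIntegrable
    intro t ht
    have ht2 : 2 ≤ t := (le_min ha hb).trans ht.1
    have hl : Real.log t ≠ 0 := (Real.log_pos (by linarith)).ne'
    have h1 : ContinuousAt (fun t => 1 / Real.log t) t :=
      continuousAt_const.div (Real.continuousAt_log (by linarith)) hl
    exact h1.continuousWithinAt
  unfold li
  rw [intervalIntegral.integral_interval_sub_left (hint 2 y₂ le_rfl (by linarith))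
    (hint 2 y₁ le_rfl h1)]
  have h3 : ∫ _t in y₁..y₂, (1 / Real.log y₂) ≤ ∫ t in y₁..y₂, 1 / Real.log t := by
    apply intervalIntegral.integral_mono_on h2 intervalIntegrable_const
      (hint y₁ y₂ h1 (by linarith))
    intro t ht
    have h4 : 0 < Real.log t := Real.log_pos (by linarith [ht.1])
    apply one_div_le_one_div_of_le h4
    exact Real.log_le_log (by linarith [ht.1]) ht.2
  rw [intervalIntegral.integral_const, smul_eq_mul] at h3
  calc (y₂ - y₁) / Real.log y₂ = (y₂ - y₁) * (1 / Real.log y₂) := by ring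
    _ ≤ _ := h3

theorem nl_b {J l L : ℝ} (h1 : J * l ≤ l + L) (h2 : 0.69 < l) (h3 : l < 0.7) (hL : 1 ≤ L) :
    J + 1 ≤ 4 * L := by
  by_contra h
  rw [not_le] at h
  have h4 : (4 * L - 1) * l < J * l := mul_lt_mul_of_pos_right (by linarith) (by linarith)
  have h5 : 0.69 * L ≤ l * L := mul_le_mul_of_nonneg_right h2.le (by linarith)
  linarith

/-- passing from dyadic blocks to all `n ≤ X` -/
theorem dyadic {P : ℕ → Prop} [DecidablePred P] {C : ℝ} {B X₀ : ℕ} (hC : 0 ≤ C)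
    (h : ∀ X : ℕ, X₀ ≤ X → (((Icc 1 X).filter (fun n => X < 2 * n ∧ P n)).card : ℝ) ≤
      C * Real.log X ^ B) :
    ∃ K : ℝ, ∀ X : ℕ, 3 ≤ X →
      (((Icc 1 X).filter (fun n => P n)).card : ℝ) ≤ K * Real.log X ^ (B + 1) := by
  refine ⟨4 * (X₀ + C * 2 ^ B), ?_⟩
  intro X hX
  have hX3 : (3 : ℝ) ≤ X := by exact_mod_cast hX
  have hL1 : 1 ≤ Real.log X := by
    have h1 : Real.log (Real.exp 1) ≤ Real.log 3 :=
      Real.log_le_log (Real.exp_pos 1) (by linarith [Real.exp_one_lt_d9])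
    rw [Real.log_exp] at h1
    exact h1.trans (Real.log_le_log (by norm_num) hX3)
  set J := Nat.clog 2 X with hJ
  have hsub : (Icc 1 X).filter (fun n => P n) ⊆
      (range (J + 1)).biUnion (fun j => (Icc 1 (2 ^ j)).filter (fun n => 2 ^ j < 2 * n ∧ P n)) := by
    intro n hn
    rw [mem_filter, mem_Icc] at hn
    rw [mem_biUnion]
    refine ⟨Nat.clog 2 n, ?_, ?_⟩
    · rw [mem_range]
      have := Nat.clog_mono_right 2 hn.1.2
      omega
    · rw [mem_filter, mem_Icc]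
      refine ⟨⟨hn.1.1, Nat.le_pow_clog (by norm_num) n⟩, ?_, hn.2⟩
      rcases Nat.eq_or_lt_of_le hn.1.1 with h1 | h1
      · rw [← h1]; simp
      · have h2 := Nat.pow_pred_clog_lt_self (b := 2) (by norm_num) h1
        have h3 : 0 < Nat.clog 2 n := Nat.clog_pos (by norm_num) h1
        have h4 : 2 ^ Nat.clog 2 n = 2 * 2 ^ (Nat.clog 2 n).pred := by
          rw [← pow_succ', ← Nat.succ_eq_add_one, Nat.succ_pred_eq_of_pos h3]
        omega
  have hcard : (((Icc 1 X).filter (fun n => P n)).card : ℝ) ≤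
      ∑ j ∈ range (J + 1), (((Icc 1 (2 ^ j)).filter (fun n => 2 ^ j < 2 * n ∧ P n)).card : ℝ) := by
    have := (Finset.card_le_card hsub).trans Finset.card_biUnion_le
    exact_mod_cast this
  have hJ2 : ((2 : ℝ) ^ J) ≤ 2 * X := by
    have h1 : 1 < X := by omega
    have h2 := Nat.pow_pred_clog_lt_self (b := 2) (by norm_num) h1
    have h3 : 0 < Nat.clog 2 X := Nat.clog_pos (by norm_num) h1
    have h4 : 2 ^ J = 2 * 2 ^ (Nat.clog 2 X).pred := by
      rw [← pow_succ', ← Nat.succ_eq_add_one, Nat.succ_pred_eq_of_pos h3]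
    have h5 : 2 ^ J ≤ 2 * X := by omega
    exact_mod_cast h5
  have hJ1 : ((J : ℝ) + 1) ≤ 4 * Real.log X := by
    have h1 : Real.log ((2 : ℝ) ^ J) ≤ Real.log (2 * X) := Real.log_le_log (by positivity) hJ2
    rw [Real.log_pow, Real.log_mul (by norm_num) (by linarith)] at h1
    exact nl_b h1 (by linarith [Real.log_two_gt_d9]) (by linarith [Real.log_two_lt_d9]) hL1
  have hterm : ∀ j ∈ range (J + 1),
      (((Icc 1 (2 ^ j)).filter (fun n => 2 ^ j < 2 * n ∧ P n)).card : ℝ) ≤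
        (X₀ + C * 2 ^ B) * Real.log X ^ B := by
    intro j hj
    rw [mem_range] at hj
    have hLB : 1 ≤ Real.log X ^ B := one_le_pow₀ hL1
    rcases le_or_gt X₀ (2 ^ j) with h1 | h1
    · have h2 := h (2 ^ j) h1
      refine h2.trans ?_
      have h3 : Real.log ((2 ^ j : ℕ) : ℝ) ≤ 2 * Real.log X := by
        push_cast
        have h4 : (2 : ℝ) ^ j ≤ 2 ^ J := pow_le_pow_right₀ (by norm_num) (by omega)
        have h5 : Real.log ((2 : ℝ) ^ j) ≤ Real.log (2 * X) :=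
          Real.log_le_log (by positivity) (h4.trans hJ2)
        rw [Real.log_mul (by norm_num) (by linarith)] at h5
        have := Real.log_two_lt_d9
        linarith
      have h4 : 0 ≤ Real.log ((2 ^ j : ℕ) : ℝ) := Real.log_natCast_nonneg _
      have h5 : Real.log ((2 ^ j : ℕ) : ℝ) ^ B ≤ (2 * Real.log X) ^ B := pow_le_pow_left₀ h4 h3 B
      rw [mul_pow] at h5
      have h6 : C * Real.log ((2 ^ j : ℕ) : ℝ) ^ B ≤ C * (2 ^ B * Real.log X ^ B) :=
        mul_le_mul_of_nonneg_left h5 hC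
      have h7 : 0 ≤ (X₀ : ℝ) * Real.log X ^ B := by positivity
      linarith
    · have h2 := Finset.card_filter_le (Icc 1 (2 ^ j)) (fun n => 2 ^ j < 2 * n ∧ P n)
      rw [Nat.card_Icc] at h2
      have h3 : (((Icc 1 (2 ^ j)).filter (fun n => 2 ^ j < 2 * n ∧ P n)).card : ℝ) ≤ X₀ := by
        exact_mod_cast (by omega : ((Icc 1 (2 ^ j)).filter (fun n => 2 ^ j < 2 * n ∧ P n)).card ≤ X₀)
      refine h3.trans ?_
      have h4 : 0 ≤ C * 2 ^ B * Real.log X ^ B := by positivity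
      have h5 : (X₀ : ℝ) * 1 ≤ X₀ * Real.log X ^ B :=
        mul_le_mul_of_nonneg_left hLB (Nat.cast_nonneg _)
      linarith
  refine hcard.trans ((Finset.sum_le_sum hterm).trans ?_)
  rw [Finset.sum_const, card_range, nsmul_eq_mul]
  push_cast
  have h1 : 0 ≤ ((X₀ : ℝ) + C * 2 ^ B) * Real.log X ^ B := by positivity
  calc ((J : ℝ) + 1) * (((X₀ : ℝ) + C * 2 ^ B) * Real.log X ^ B)
      ≤ (4 * Real.log X) * (((X₀ : ℝ) + C * 2 ^ B) * Real.log X ^ B) :=
        mul_le_mul_of_nonneg_right hJ1 h1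
    _ = 4 * (X₀ + C * 2 ^ B) * Real.log X ^ (B + 1) := by ring

theorem nl_a {ε ρ : ℝ} (h0 : 0 < ε) (h1 : ε ≤ 1) (hρ : ρ = ε / 100) :
    15 / 4 + ε / 4 ≤ (15 / 4 + ε / 2) * (1 - ρ) ^ 2 := by
  subst hρ
  nlinarith [mul_pos h0 h0, mul_nonneg h0.le (sub_nonneg.2 h1)]

/-- the bad numbers -/
def Bad (ε : ℝ) (A : ℕ) (n : ℕ) : Prop :=
  Even n ∧ 4 ≤ n ∧ ∃ y₁ y₂ : ℝ, 2 ≤ y₁ ∧ y₁ + n / Real.log n ^ A ≤ y₂ ∧ y₂ ≤ n ∧
    (15 / 4 + ε) * sing n * (li y₂ - li y₁) / Real.log n < rr n y₁ y₂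

theorem block (ε : ℝ) (hε : 0 < ε) (hε1 : ε ≤ 1) (A : ℕ) : ∃ (B : ℕ) (C : ℝ) (X₀ : ℕ), 0 ≤ C ∧
    ∀ X : ℕ, X₀ ≤ X → {n : ℕ | 1 ≤ n ∧ n ≤ X ∧ X < 2 * n ∧ Bad ε A n}.ncard ≤
      C * Real.log X ^ B := by
  classical
  set θ : ℝ := 8 / (15 + ε) with hθ
  have hθ1 : 1 / 2 ≤ θ := by
    rw [hθ, div_le_div_iff₀ (by norm_num) (by linarith)]
    linarith
  have hθ2 : θ < 8 / 15 := by
    rw [hθ, div_lt_div_iff₀ (by linarith) (by norm_num)]
    linarith
  have hθ0 : 0 < θ := by linarith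
  have h2θ : 2 / θ = 15 / 4 + ε / 4 := by
    rw [hθ]
    have : 15 + ε ≠ 0 := by linarith
    field_simp
    ring
  obtain ⟨B, C, hC, hlev⟩ := level θ hθ1 hθ2 3 (by norm_num) (A + 3)
  obtain ⟨ρ, hρ⟩ : ∃ ρ : ℝ, ρ = ε / 100 := ⟨_, rfl⟩
  have hρ0 : 0 < ρ := by rw [hρ]; positivity
  have hρ1 : ρ < 1 := by rw [hρ]; linarith
  have hC2 := C2_pos
  obtain ⟨W, hW1, hW⟩ := GN_lower (ρ / C2) (by positivity)
  have hWr : (1 : ℝ) ≤ W := by exact_mod_cast hW1
  have tl : Tendsto (fun X : ℕ => Real.log (X : ℝ)) atTop atTop :=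
    Real.tendsto_log_atTop.comp tendsto_natCast_atTop_atTop
  have E1 : ∀ᶠ X : ℕ in atTop, Real.log (2 * W) / (ρ * (θ / 2)) ≤ Real.log (X : ℝ) :=
    tl.eventually_ge_atTop _
  have E2 : ∀ᶠ X : ℕ in atTop, 6 / (ε * C2) ≤ Real.log (X : ℝ) := tl.eventually_ge_atTop _
  have E3 : ∀ᶠ X : ℕ in atTop, (2 * W + 2 : ℝ) ≤ (X : ℝ) ^ (θ / 2) :=
    ((tendsto_rpow_atTop (by positivity)).comp tendsto_natCast_atTop_atTop).eventually_ge_atTop _
  have E4 : ∀ᶠ X : ℕ in atTop, (X : ℝ) ^ (θ / 2) + 1 ≤ X / Real.log X ^ (A + 3) := by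
    have h1 : (fun x : ℝ => Real.log x ^ (A + 3)) =o[atTop] (fun x : ℝ => x ^ (1 / 4 : ℝ)) :=
      isLittleO_log_rpow_rpow_atTop (r := ((A + 3 : ℕ) : ℝ)) (s := 1 / 4) (by norm_num) |>.congr_left
        (by intro x; rw [Real.rpow_natCast])
    have h2 := (h1.comp_tendsto tendsto_natCast_atTop_atTop (k := fun n : ℕ => (n : ℝ))).bound
      (show (0 : ℝ) < 1 / 2 by norm_num)
    filter_upwards [h2, eventually_ge_atTop 3] with X h3 h4
    have hX3 : (3 : ℝ) ≤ X := by exact_mod_cast h4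
    have hL : 0 < Real.log (X : ℝ) := Real.log_pos (by linarith)
    simp only [Function.comp] at h3
    rw [Real.norm_of_nonneg (by positivity), Real.norm_of_nonneg (by positivity)] at h3
    rw [le_div_iff₀ (by positivity)]
    have h5 : (X : ℝ) ^ (θ / 2) ≤ (X : ℝ) ^ (3 / 4 : ℝ) :=
      Real.rpow_le_rpow_of_exponent_le (by linarith) (by linarith)
    have h6 : 1 ≤ (X : ℝ) ^ (3 / 4 : ℝ) := Real.one_le_rpow (by linarith) (by norm_num)
    have h7 : (X : ℝ) ^ (3 / 4 : ℝ) * (X : ℝ) ^ (1 / 4 : ℝ) = X := by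
      rw [← Real.rpow_add (by linarith)]; norm_num
    calc ((X : ℝ) ^ (θ / 2) + 1) * Real.log X ^ (A + 3)
        ≤ (2 * (X : ℝ) ^ (3 / 4 : ℝ)) * (1 / 2 * (X : ℝ) ^ (1 / 4 : ℝ)) := by
          apply mul_le_mul (by linarith) h3 (by positivity) (by positivity)
      _ = (X : ℝ) ^ (3 / 4 : ℝ) * (X : ℝ) ^ (1 / 4 : ℝ) := by ring
      _ = X := h7
  obtain ⟨X₀, hX₀⟩ := ((((E1.and E2).and E3).and E4).and
    (eventually_ge_atTop 8)).exists_forall_of_atTop
  refine ⟨B, C, X₀, hC.le, ?_⟩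
  intro X hX
  obtain ⟨⟨⟨⟨e1, e2⟩, e3⟩, e4⟩, e5⟩ := hX₀ X hX
  have hX8 : (8 : ℝ) ≤ X := by exact_mod_cast e5
  set L := Real.log (X : ℝ) with hL
  have hL1 : 1 ≤ L := by
    have h1 : Real.log (Real.exp 1) ≤ Real.log X :=
      Real.log_le_log (Real.exp_pos 1) (by linarith [Real.exp_one_lt_d9])
    rwa [Real.log_exp] at h1
  have hlevX := hlev X (by omega)
  set Exc := (Icc 1 X).filter (fun a : ℕ => (X : ℝ) / Real.log X ^ (A + 3) <
      ∑ d ∈ (SS θ X).filter (fun d => Nat.Coprime a d),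
        3 ^ d.primeFactors.card * errMax X d a) with hExc
  have hsub : {n : ℕ | 1 ≤ n ∧ n ≤ X ∧ X < 2 * n ∧ Bad ε A n} ⊆ (Exc : Set ℕ) := by
    rintro n ⟨hn1, hnX, hXn, hev, hn4, y₁, y₂, hy1, hy12, hy2, hbad⟩
    rw [Finset.mem_coe, hExc, mem_filter, mem_Icc]
    refine ⟨⟨hn1, hnX⟩, ?_⟩
    by_contra hcon
    rw [not_lt] at hcon
    refine absurd hbad (not_lt.2 ?_)
    have hn4' : (4 : ℝ) ≤ n := by exact_mod_cast hn4
    have hnXr : (n : ℝ) ≤ X := by exact_mod_cast hnX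
    have hXnr : (X : ℝ) ≤ 2 * n := by exact_mod_cast hXn.le
    have hln0 : 1 ≤ Real.log n := by
      have h1 : Real.log (Real.exp 1) ≤ Real.log n :=
        Real.log_le_log (Real.exp_pos 1) (by linarith [Real.exp_one_lt_d9])
      rwa [Real.log_exp] at h1
    have hlnL : Real.log n ≤ L := Real.log_le_log (by linarith) hnXr
    have hy12' : y₁ ≤ y₂ := by
      have : 0 ≤ (n : ℝ) / Real.log n ^ A := by positivity
      linarith
    set R : ℕ := ⌊(X : ℝ) ^ (θ / 2)⌋₊ with hR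
    have hRle : (R : ℝ) ≤ (X : ℝ) ^ (θ / 2) := Nat.floor_le (by positivity)
    have hRge : (X : ℝ) ^ (θ / 2) - 1 ≤ R := by
      have := Nat.lt_floor_add_one ((X : ℝ) ^ (θ / 2))
      rw [← hR] at this
      linarith
    have hRW : (2 * W : ℝ) ≤ R := by linarith
    have hR1 : 1 ≤ R := by
      have : (1 : ℝ) ≤ R := by linarith
      exact_mod_cast this
    have hWR : W ≤ R := by
      have : (W : ℝ) ≤ R := by linarith
      exact_mod_cast this
    have h1 := one_n (θ := θ) hev hy1 hy12' hy2 hnX hR1 hRle (by omega) hcon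
    have h2 := hW n R hev (by omega) hWR
    set P := ∏ p ∈ n.primeFactors.filter (fun p => 2 < p), (1 + ((p : ℝ) - 2)⁻¹) with hP
    have hP1 : 1 ≤ P := one_le_prod n
    have hsing : sing n = 2 * C2 * P := by unfold sing; rw [prod_eq]
    have hlogR : (1 - ρ) * (θ / 2) * L ≤ Real.log ((R : ℝ) / W) := by
      have h3 : (X : ℝ) ^ (θ / 2) / (2 * W) ≤ (R : ℝ) / W := by
        rw [div_le_div_iff₀ (by positivity) (by linarith)]
        have : (X : ℝ) ^ (θ / 2) ≤ 2 * R := by linarith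
        have h4 : (X : ℝ) ^ (θ / 2) * W ≤ 2 * R * W := mul_le_mul_of_nonneg_right this (by linarith)
        linarith
      have h4 := Real.log_le_log (by positivity) h3
      rw [Real.log_div (by positivity) (by positivity), Real.log_rpow (by linarith)] at h4
      have h5 : Real.log (2 * W) ≤ ρ * (θ / 2) * L := by
        rw [div_le_iff₀ (by positivity)] at e1
        linarith
      linarith
    have hlogR0 : 0 < Real.log ((R : ℝ) / W) := by
      refine lt_of_lt_of_le ?_ hlogR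
      have : 0 < 1 - ρ := by linarith
      positivity
    have hGN : (1 / 2) * (C2⁻¹ * (1 - ρ)) * ((1 - ρ) * (θ / 2) * L) ≤ P * GN n R := by
      refine le_trans ?_ h2
      have h3 : C2⁻¹ - ρ / C2 = C2⁻¹ * (1 - ρ) := by field_simp
      rw [h3]
      have : 0 < 1 - ρ := by linarith
      exact mul_le_mul_of_nonneg_left hlogR (by positivity)
    have hselS := GN_le_selS (n := n) (R := R) hev (y₁ := y₁) (y₂ := y₂)
    have hden : 0 < (1 / 2) * (C2⁻¹ * (1 - ρ)) * ((1 - ρ) * (θ / 2) * L) := by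
      have : 0 < 1 - ρ := by linarith
      positivity
    have hP0 : 0 < P := by linarith
    have hS : (1 / 2) * (C2⁻¹ * (1 - ρ)) * ((1 - ρ) * (θ / 2) * L) / P ≤
        selS (gs n R hev y₁ y₂) (R : ℝ) := by
      refine le_trans ?_ hselS
      rw [div_le_iff₀ hP0]
      linarith
    have hli := li_diff_ge hy1 hy12'
    have hy2pos : 0 < Real.log y₂ := Real.log_pos (by linarith)
    have hlidiff : (n : ℝ) / Real.log n ^ A / Real.log n ≤ li y₂ - li y₁ := by
      refine le_trans ?_ hli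
      apply div_le_div₀ (by linarith) (by linarith) hy2pos
      exact Real.log_le_log (by linarith) hy2
    have hli0 : 0 ≤ li y₂ - li y₁ := le_trans (by positivity) hlidiff
    have hmain : (li y₂ - li y₁) / selS (gs n R hev y₁ y₂) (R : ℝ) ≤
        (15 / 4 + ε / 2) * sing n * (li y₂ - li y₁) / Real.log n := by
      have h3 : (li y₂ - li y₁) / selS (gs n R hev y₁ y₂) (R : ℝ) ≤
          (li y₂ - li y₁) / ((1 / 2) * (C2⁻¹ * (1 - ρ)) * ((1 - ρ) * (θ / 2) * L) / P) :=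
        div_le_div_of_nonneg_left hli0 (div_pos hden hP0) hS
      have h4 : (li y₂ - li y₁) / ((1 / 2) * (C2⁻¹ * (1 - ρ)) * ((1 - ρ) * (θ / 2) * L) / P) =
          (2 / θ) / (1 - ρ) ^ 2 * (2 * C2 * P) * (li y₂ - li y₁) / L := by
        have : (1 - ρ) ≠ 0 := by linarith
        field_simp
      rw [h4, h2θ] at h3
      have h5 : (15 / 4 + ε / 4) / (1 - ρ) ^ 2 ≤ 15 / 4 + ε / 2 := by
        rw [div_le_iff₀ (by
          have : 0 < 1 - ρ := by linarith
          positivity)]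
        exact nl_a hε hε1 hρ
      refine h3.trans ?_
      rw [hsing]
      have h6 : (15 / 4 + ε / 4) / (1 - ρ) ^ 2 * (2 * C2 * P) * (li y₂ - li y₁) ≤
          (15 / 4 + ε / 2) * (2 * C2 * P) * (li y₂ - li y₁) := by
        apply mul_le_mul_of_nonneg_right _ hli0
        exact mul_le_mul_of_nonneg_right h5 (by positivity)
      apply div_le_div₀ (by positivity) h6 (by linarith) hlnL
    have herr : 2 * ((X : ℝ) / L ^ (A + 3)) + (R + 1) ≤
        ε / 2 * sing n * (li y₂ - li y₁) / Real.log n := by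
      have h3 : 2 * ((X : ℝ) / L ^ (A + 3)) + (R + 1) ≤ 3 * ((X : ℝ) / L ^ (A + 3)) := by
        linarith
      have h4 : (X : ℝ) / 2 / L ^ (A + 1) ≤ li y₂ - li y₁ := by
        refine le_trans ?_ hlidiff
        rw [div_div ((n : ℝ)), ← pow_succ]
        apply div_le_div₀ (by linarith) (by linarith) (by positivity)
        exact pow_le_pow_left₀ (by linarith) hlnL _
      have h5 : 3 * ((X : ℝ) / L ^ (A + 3)) ≤ ε / 2 * (2 * C2) * ((X : ℝ) / 2 / L ^ (A + 1)) / L := by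
        rw [div_le_iff₀ (by positivity)] at e2
        have h6 : ε / 2 * (2 * C2) * ((X : ℝ) / 2 / L ^ (A + 1)) / L =
            (L * (ε * C2)) * (X / (2 * L ^ (A + 3))) := by
          have : L ≠ 0 := by linarith
          field_simp
          ring
        rw [h6]
        have h7 : 3 * ((X : ℝ) / L ^ (A + 3)) = 6 * (X / (2 * L ^ (A + 3))) := by
          have : L ≠ 0 := by linarith
          field_simp
          ring
        rw [h7]
        exact mul_le_mul_of_nonneg_right e2 (by positivity)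
      refine h3.trans (h5.trans ?_)
      rw [hsing]
      apply div_le_div₀ (by positivity) _ (by linarith) hlnL
      have h8 : ε / 2 * (2 * C2) ≤ ε / 2 * (2 * C2 * P) := by
        have h9 : 2 * C2 * 1 ≤ 2 * C2 * P := mul_le_mul_of_nonneg_left hP1 (by positivity)
        rw [mul_one] at h9
        exact mul_le_mul_of_nonneg_left h9 (by positivity)
      exact mul_le_mul h8 h4 (by positivity) (by positivity)
    have hfin : (15 / 4 + ε) * sing n * (li y₂ - li y₁) / Real.log n =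
        (15 / 4 + ε / 2) * sing n * (li y₂ - li y₁) / Real.log n +
          ε / 2 * sing n * (li y₂ - li y₁) / Real.log n := by ring
    rw [hfin]
    linarith
  have h1 := Set.ncard_le_ncard hsub (Finset.finite_toSet _)
  rw [Set.ncard_coe_finset] at h1
  have h2 : (({n : ℕ | 1 ≤ n ∧ n ≤ X ∧ X < 2 * n ∧ Bad ε A n}.ncard : ℕ) : ℝ) ≤ (Exc.card : ℝ) := by
    exact_mod_cast h1
  exact h2.trans hlevX

end Pool.Agent.W23.UB
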